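import Mathlib

/-!
# The Cartan field of a nonsplit prime: definition
-/

set_option autoImplicit false

namespace Pool.Agent.H80.CPP

open WeierstrassCurve

open scoped Classical in
/-- `p` is a nonsplit prime for `E` with Cartan field `K`: `K` is a quadratic field, `p` is prime, and
for an additive isomorphism `e` of `E[p]` with the field `F_{p²}` every automorphism `σ` of `ℚ̄` which
is trivial on `K` acts on `E[p]` as `v ↦ c v`, every other one as `v ↦ c v^p` (`c ∈ F_{p²}`
depending on `σ`). -/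
def CartanField (E : WeierstrassCurve ℚ) (p : ℕ)
    (K : IntermediateField ℚ (AlgebraicClosure ℚ)) : Prop :=
  let T := AddSubgroup.torsionBy (E.baseChange (AlgebraicClosure ℚ)).toAffine.Point (p : ℤ)
  Module.finrank ℚ K = 2 ∧ ∃ (_ : Fact p.Prime) (e : T ≃+ GaloisField p 2),
    ∀ σ : AlgebraicClosure ℚ ≃ₐ[ℚ] AlgebraicClosure ℚ,
    ((∀ x ∈ K, σ x = x) → ∃ c : GaloisField p 2, ∀ P Q : T,
      Affine.Point.map (W' := E) σ.toAlgHom P.val = Q.val → e Q = c * e P) ∧
    ((∃ x ∈ K, σ x ≠ x) → ∃ c : GaloisField p 2, ∀ P Q : T,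
      Affine.Point.map (W' := E) σ.toAlgHom P.val = Q.val → e Q = c * e P ^ p)

end Pool.Agent.H80.CPP
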