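import Pool.Agent.H27.SU.TRdef

/-!
# Products of primes separated by few automorphisms
-/

set_option autoImplicit false

namespace Pool.Agent.H80.CPP

open Pool.Agent.H27.SU IntermediateField
open scoped Classical

private theorem fin_adj (y : ℕ → QB) (S : Finset ℕ) :
    FiniteDimensional ℚ (adjoin ℚ (y '' (S : Set ℕ))) := by
  have hAlg : Algebra.IsAlgebraic ℚ QB := AlgebraicClosure.isAlgebraic ℚ
  exact finiteDimensional_adjoin fun x _ => (hAlg.isAlgebraic x).isIntegral

private theorem fix_adj (y : ℕ → QB) (S : Finset ℕ) (τ : GQ) (h : ∀ p ∈ S, τ (y p) = y p) :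
    ∀ x ∈ adjoin ℚ (y '' (S : Set ℕ)), τ x = x := by
  intro x hx
  have h1 : adjoin ℚ (y '' (S : Set ℕ)) ≤ IntermediateField.fixedField (Subgroup.zpowers τ) := by
    rw [adjoin_le_iff]
    rintro _ ⟨p, hp, rfl⟩
    show y p ∈ IntermediateField.fixedField (Subgroup.zpowers τ)
    rw [IntermediateField.mem_fixedField_iff]
    intro f hf
    have hle : Subgroup.zpowers τ ≤ MulAction.stabilizer GQ (y p) := by
      rw [Subgroup.zpowers_le]
      exact h p hp
    exact hle hf
  have h2 := h1 hx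
  rw [IntermediateField.mem_fixedField_iff] at h2
  exact h2 τ (Subgroup.mem_zpowers τ)

/-- if every element of `S` is moved by some `τ` moving only elements of product `≤ C`, the product
of `S` is at most `C ^ k`, `2 ^ k` the degree of the field generated by the `y p` -/
theorem prod_bd (y : ℕ → QB) (C : ℕ) (hC1 : 1 ≤ C) : ∀ (k : ℕ) (S : Finset ℕ), (∀ p ∈ S, 1 ≤ p) →
    (∀ p ∈ S, ∃ τ : GQ, τ (y p) ≠ y p ∧ ∏ q ∈ S with τ (y q) ≠ y q, q ≤ C) →
    Module.finrank ℚ (adjoin ℚ (y '' (S : Set ℕ))) ≤ 2 ^ k → ∏ p ∈ S, p ≤ C ^ k := by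
  intro k
  induction k with
  | zero =>
    intro S h1 hS hfin
    rcases S.eq_empty_or_nonempty with rfl | ⟨p, hp⟩
    · simp
    · exfalso
      obtain ⟨τ, hτ, -⟩ := hS p hp
      apply hτ
      have hF := fin_adj y S
      have h0 : 0 < Module.finrank ℚ (adjoin ℚ (y '' (S : Set ℕ))) := Module.finrank_pos
      have h2 : Module.finrank ℚ (adjoin ℚ (y '' (S : Set ℕ))) = 1 := by
        rw [pow_zero] at hfin
        omega
      have h3 : adjoin ℚ (y '' (S : Set ℕ)) = ⊥ := IntermediateField.finrank_eq_one_iff.1 h2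
      have h4 : y p ∈ adjoin ℚ (y '' (S : Set ℕ)) := subset_adjoin _ _ ⟨p, hp, rfl⟩
      rw [h3] at h4
      obtain ⟨a, ha⟩ := IntermediateField.mem_bot.1 h4
      rw [← ha, AlgEquiv.commutes]
  | succ k ih =>
    intro S h1 hS hfin
    rcases S.eq_empty_or_nonempty with rfl | ⟨p, hp⟩
    · rw [Finset.prod_empty]
      exact Nat.one_le_pow _ _ hC1
    · obtain ⟨τ, hτ, hC⟩ := hS p hp
      obtain ⟨T, hT⟩ : ∃ T, T = S.filter fun q => ¬ τ (y q) ≠ y q := ⟨_, rfl⟩
      have hTS : T ⊆ S := by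
        rw [hT]
        exact Finset.filter_subset _ _
      have hTf : ∀ q ∈ T, τ (y q) = y q := by
        intro q hq
        rw [hT, Finset.mem_filter] at hq
        exact not_not.1 hq.2
      have hle : adjoin ℚ (y '' (T : Set ℕ)) ≤ adjoin ℚ (y '' (S : Set ℕ)) :=
        adjoin.mono _ _ _ (Set.image_mono (by exact_mod_cast hTS))
      have hF := fin_adj y S
      have hmul := finrank_bot_mul_relfinrank hle
      have hpos : 0 < Module.finrank ℚ (adjoin ℚ (y '' (S : Set ℕ))) := Module.finrank_pos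
      have hrel : 2 ≤ relfinrank (adjoin ℚ (y '' (T : Set ℕ))) (adjoin ℚ (y '' (S : Set ℕ))) := by
        by_contra hcon
        rw [not_le] at hcon
        have hne : relfinrank (adjoin ℚ (y '' (T : Set ℕ))) (adjoin ℚ (y '' (S : Set ℕ))) ≠ 0 := by
          intro h0
          rw [h0, mul_zero] at hmul
          omega
        have h2 : relfinrank (adjoin ℚ (y '' (T : Set ℕ))) (adjoin ℚ (y '' (S : Set ℕ))) = 1 := by
          omega
        rw [relfinrank_eq_one_iff] at h2
        exact hτ (fix_adj y T τ hTf (y p) (h2 (subset_adjoin _ _ ⟨p, hp, rfl⟩)))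
      have hT2 : Module.finrank ℚ (adjoin ℚ (y '' (T : Set ℕ))) ≤ 2 ^ k := by
        rw [pow_succ] at hfin
        have h3 : Module.finrank ℚ (adjoin ℚ (y '' (T : Set ℕ))) * 2 ≤ 2 ^ k * 2 :=
          (Nat.mul_le_mul_left _ hrel).trans (hmul.le.trans hfin)
        omega
      have hprod : ∏ q ∈ T, q ≤ C ^ k := by
        refine ih T (fun q hq => h1 q (hTS hq)) (fun q hq => ?_) hT2
        obtain ⟨τ', hτ', hC'⟩ := hS q (hTS hq)
        refine ⟨τ', hτ', le_trans ?_ hC'⟩
        refine Finset.prod_le_prod_of_subset_of_one_le' (Finset.filter_subset_filter _ hTS) ?_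
        intro a ha _
        exact h1 a (Finset.mem_filter.1 ha).1
      rw [← Finset.prod_filter_mul_prod_filter_not S (fun q => τ (y q) ≠ y q), ← hT, pow_succ,
        mul_comm]
      exact Nat.mul_le_mul hprod hC

end Pool.Agent.H80.CPP
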