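import Pool.Agent.H80.CPP.Loc
import Pool.Agent.H82.HW.LocFrob3

/-!
# Nonsplit primes whose Cartan field is ramified at a prime `q ≡ 1` modulo `4`
-/

set_option autoImplicit false

namespace Pool.Agent.H80.CPP

open WeierstrassCurve Polynomial Pool.Agent.H27.SU Pool.Agent.H82.HW Pool.Agent.H82.SV
  Pool.Agent.H82.SW Pool.Agent.H82.SX Pool.Agent.H82.MU Pool.Agent.H80.CP
open scoped Classical

theorem tw_all {K : Type} [Field K] [DecidableEq K] [IsAlgClosed K] (q : ℕ) [Fact q.Prime]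
    [CharP K q] (hq5 : 5 ≤ q) (W : WeierstrassCurve K) [W.IsShortNF] [W.IsElliptic]
    (G : W.toAffine.Point →+ W.toAffine.Point) (hGinj : Function.Injective G) (δ κ : K)
    (hδ : δ ≠ 0) (hG : ∀ R, cx (G R) = δ * cx R ^ q ∧ cy (G R) = κ * cy R ^ q)
    (T : Finset ℕ) (hT : ∀ p ∈ T, p.Prime) (hsc : ∀ p ∈ T, ScOn W G p) :
    (∏ p ∈ T, p) ^ 2 ≤ 4 * q := by
  have hq : q.Prime := Fact.out
  have hodd : Odd q := hq.odd_of_ne_two (by omega)
  obtain ⟨r, hr⟩ : ∃ r, q + 1 = 2 * r := by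
    obtain ⟨t, ht⟩ := hodd
    exact ⟨t + 1, by rw [ht]; ring⟩
  have dA : (C δ * X ^ q : K[X]).natDegree = q := natDegree_C_mul_X_pow q δ hδ
  have hcub : (X ^ 3 + C W.a₄ * X + C W.a₆ : K[X]).natDegree ≤ 3 := by
    compute_degree
  have dB : (C κ * (X ^ 3 + C W.a₄ * X + C W.a₆ : K[X]) ^ r).natDegree < 2 * q + 1 := by
    refine lt_of_le_of_lt ((natDegree_C_mul_le _ _).trans natDegree_pow_le) ?_
    nlinarith
  obtain ⟨β, hβ1, hβ2, -⟩ := scalar_disc_all q hq5 W (A := C δ * X ^ q)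
    (B := C κ * (X ^ 3 + C W.a₄ * X + C W.a₆) ^ r) (by rw [dA]; omega) (by rw [dA]; exact dB)
    G (fun R hR => by
      refine ⟨fun h => hR (hGinj (by rw [h, map_zero])), ?_, ?_⟩
      · rw [(hG _).1]
        simp only [eval_mul, eval_C, eval_pow, eval_X]
      · rw [(hG _).2, mul_assoc, ← pow_succ, hr, pow_mul, eq_short hR]
        simp only [eval_pow, eval_add, eval_mul, eval_X, eval_C])
  rw [dA] at hβ1 hβ2
  have hβ3 := prod_sq_dvd T hT _ fun p hp => hβ2 p (hT p hp) (hsc p hp)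
  have h0 : 4 * (q : ℤ) - β ^ 2 ≠ 0 := by
    intro h0
    have h1 : (2 : ℤ) ∣ β := by
      have h3 : (2 : ℤ) ∣ β ^ 2 := ⟨2 * q, by linear_combination -h0⟩
      exact Int.prime_two.dvd_of_dvd_pow h3
    obtain ⟨k, hk⟩ := h1
    have h3 : (q : ℤ) = k ^ 2 := by
      rw [hk] at h0
      nlinarith
    have hqq : Prime (q : ℤ) := Nat.prime_iff_prime_int.1 hq
    have h4 : (q : ℤ) ∣ k := by
      apply hqq.dvd_of_dvd_pow (n := 2)
      rw [← h3]
    obtain ⟨m, hm⟩ := h4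
    have hq0 : (q : ℤ) ≠ 0 := hqq.ne_zero
    have h5 : (q : ℤ) * m ^ 2 = 1 := by
      apply mul_left_cancel₀ hq0
      rw [mul_one]
      conv_rhs => rw [h3, hm]
      ring
    have h6 : (q : ℤ) ∣ 1 := ⟨_, h5.symm⟩
    exact hqq.not_dvd_one h6
  have h6 := Int.le_of_dvd (lt_of_le_of_ne (by linarith) (Ne.symm h0)) hβ3
  have h7 : (((∏ p ∈ T, p) ^ 2 : ℕ) : ℤ) ≤ ((4 * q : ℕ) : ℤ) := by
    push_cast at h6 ⊢
    nlinarith [sq_nonneg β]
  exact_mod_cast h7

variable {ℓ : ℕ} [Fact ℓ.Prime]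

/-- an element of inertia with `ε² = 1` acts as `± 1` -/
theorem inr_pm {V : Type} [AddCommGroup V] {ρ : GG ℓ →* Au V} (hℓ : 5 ≤ ℓ) (M : GM ℓ V ρ) {N : ℕ}
    (hNℓ : ¬ ℓ ∣ N) (hNV : ∀ v : V, N • v = 0) {γ : GG ℓ} (hγ : γ ∈ Inr ℓ)
    (h : (γ M.d / M.d) ^ 2 = 1) : (∀ v, (ρ γ).1 v = v) ∨ ∀ v, (ρ γ).1 v = -v := by
  have hne : ∀ v : V, v ≠ 0 → (ρ γ).1 v ≠ 0 := by
    intro v hv h0
    apply hv
    apply alb_inj (ρ γ)
    rw [h0, map_zero]
  rcases mul_self_eq_one_iff.1 (show (γ M.d / M.d) * (γ M.d / M.d) = 1 by rw [← pow_two]; exact h) with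
    h1 | h1
  · refine Or.inl fun v => ?_
    by_cases hv : v = 0
    · rw [hv, map_zero]
    · obtain ⟨h3, h4⟩ := inr_cong hℓ M hNℓ hNV hγ v
      rw [h1, one_pow, one_mul] at h3 h4
      exact gm_eq hℓ M hNℓ hNV (hne v hv) hv h3 h4
  · refine Or.inr fun v => ?_
    by_cases hv : v = 0
    · rw [hv, map_zero, neg_zero]
    · obtain ⟨h3, h4⟩ := inr_cong hℓ M hNℓ hNV hγ v
      rw [h1] at h3 h4
      refine gm_eq hℓ M hNℓ hNV (hne v hv) (neg_ne_zero.2 hv) ?_ ?_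
      · rw [map_neg, cx_neg]
        have e : (-1 : PadicAlgCl ℓ) ^ 2 * cx (M.j v) = cx (M.j v) := by ring
        rwa [e] at h3
      · rw [map_neg, cy_neg]
        have e : (-1 : PadicAlgCl ℓ) ^ 3 * cy (M.j v) = -cy (M.j v) := by ring
        rwa [e] at h4

/-- the product of the nonsplit primes whose Cartan fields are ramified at `q ≡ 1` modulo `4` -/
theorem t3_prod (E : WeierstrassCurve ℚ) [E.IsElliptic] (hj1 : E.j ≠ 1728) (q : ℕ) [Fact q.Prime]
    (hq4 : q % 4 = 1) (hj : 0 ≤ padicValRat q E.j) (hodd : Odd (padicValRat q (E.j - 1728)))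
    (S : Finset ℕ) (y : ℕ → QB) (m : ℕ → ℤ)
    (hS : ∀ p ∈ S, 5 ≤ p ∧ p ≠ q ∧ NonsplitWith E p (y p) ∧ Squarefree (m p) ∧
      y p ^ 2 = (m p : QB) ∧ (q : ℤ) ∣ m p) : ∏ p ∈ S, p ≤ 4 * q := by
  have hq : q.Prime := Fact.out
  have hq5 : 5 ≤ q := by
    have h2 := hq.two_le
    omega
  rcases S.eq_empty_or_nonempty with rfl | ⟨p₀, hp₀⟩
  · rw [Finset.prod_empty]
    omega
  have hSp : ∀ p ∈ S, p.Prime := by
    intro p hp
    obtain ⟨h, -⟩ := (hS p hp).2.2.1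
    exact h.out
  have hql4 : ¬ q ∣ 4 := by
    intro h
    have h5 : q ∣ 2 ^ 2 := by simpa using h
    have := (Nat.prime_dvd_prime_iff_eq hq Nat.prime_two).1 (hq.dvd_of_dvd_pow h5)
    omega
  have hq12 : ¬ q ∣ 12 := by
    intro h
    have h1 : q ∣ 4 * 3 := by simpa using h
    rcases (Nat.Prime.dvd_mul hq).1 h1 with h2 | h2
    · exact hql4 h2
    · have h3 := Nat.le_of_dvd (by norm_num) h2
      omega
  obtain ⟨N, hNd⟩ : ∃ N, N = ∏ p ∈ S, p := ⟨_, rfl⟩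
  have hN0 : N ≠ 0 := by
    rw [hNd]
    exact Finset.prod_ne_zero_iff.2 fun p hp => (hSp p hp).ne_zero
  have hNe : NeZero N := ⟨hN0⟩
  have hqN : ¬ q ∣ N := by
    rw [hNd]
    intro h
    obtain ⟨p, hp, hd⟩ := (Prime.dvd_finsetProd_iff hq.prime _).1 h
    have h1 := (Nat.prime_dvd_prime_iff_eq hq (hSp p hp)).1 hd
    exact (hS p hp).2.1 h1.symm
  have hNT : ∀ v : TT E N, N • v = 0 := tt_smul E N
  have hdp : ∀ p ∈ S, p ∣ N := by
    intro p hp
    rw [hNd]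
    exact Finset.dvd_prod_of_mem (fun p => p) hp
  let _ : Fintype (TT E N) := Fintype.ofFinite _
  obtain ⟨ι, res, hres⟩ := exists_restr q
  obtain ⟨pi, hpi⟩ := IsAlgClosed.exists_pow_nat_eq (q : PadicAlgCl q) (by norm_num : 0 < 12)
  obtain ⟨M, u, hd, hu, h6, h4⟩ := exists_GM2 E N hq5 hj hj1 hodd ι res hres pi hpi
  have hW := M.good
  -- the character `ε` of inertia
  have hd4 : ∀ σ : GG q, (σ M.d) ^ 4 = M.d ^ 4 := by
    intro σ
    obtain ⟨x, hx⟩ : ∃ x : ℤ, u = 6 * x + 3 := ⟨u / 6, by omega⟩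
    have h1 : M.d ^ 4 = (q : PadicAlgCl q) ^ (2 * x + 1) := by
      rw [hd, ← hpi, ← zpow_natCast, ← zpow_natCast, ← zpow_mul, ← zpow_mul, hx]
      congr 1
      push_cast
      ring
    rw [← map_pow, h1, map_zpow₀, map_natCast]
  have he4 : ∀ σ : GG q, (σ M.d / M.d) ^ 4 = 1 := by
    intro σ
    rw [div_pow, hd4, div_self (pow_ne_zero 4 M.d0)]
  -- inertia with `ε² = 1` fixes all `y p`
  have hfix : ∀ γ ∈ Inr q, (γ M.d / M.d) ^ 2 = 1 → ∀ p ∈ S, res γ (y p) = y p := by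
    intro γ hγ h2 p hp
    by_contra hmove
    have hfp : Fact p.Prime := ⟨hSp p hp⟩
    obtain ⟨-, -, hnw, -, -, -⟩ := hS p hp
    obtain ⟨k, i1, i2, e, m', s, hk, hNs, hmsq, hs, hms, hys⟩ := nonsplitWith_data E hnw
    have hsemi : IsSemi e p (rhoQ E p (res γ)) :=
      (hNs (res γ)).resolve_left fun h => hmove ((hys (res γ)).2 ((hms (res γ)).1 h))
    refine not_lin_semi e hk (g := rhoQ E p (res γ)) ?_ hsemi
    rcases inr_pm hq5 M hqN hNT hγ h2 with h | h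
    · refine ⟨1, fun v => ?_⟩
      have h3 : (rhoQ E p (res γ)).1 v = v := by
        apply incl_inj E (hdp p hp)
        rw [incl_rho]
        exact h _
      rw [h3, one_mul]
    · refine ⟨-1, fun v => ?_⟩
      have h3 : (rhoQ E p (res γ)).1 v = -v := by
        apply incl_inj E (hdp p hp)
        rw [incl_rho, map_neg]
        exact h _
      rw [h3, map_neg]
      ring
  have hsq1 : ∀ σ : GG q, (σ M.d / M.d) ^ 2 = 1 ∨ (σ M.d / M.d) ^ 2 = -1 := by
    intro σ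
    have h5 : ((σ M.d / M.d) ^ 2 - 1) * ((σ M.d / M.d) ^ 2 + 1) = 0 := by
      linear_combination he4 σ
    rcases mul_eq_zero.1 h5 with h | h
    · exact Or.inl (sub_eq_zero.1 h)
    · exact Or.inr (eq_neg_of_add_eq_zero_left h)
  have hex : ∀ p ∈ S, ∃ γ ∈ Inr q, res γ (y p) ≠ y p := by
    intro p hp
    by_contra hcon
    push Not at hcon
    obtain ⟨-, -, -, hsf, hy, hdvd⟩ := hS p hp
    exact not_dvd_of_inertia ι res hres (m p) hsf (y p) hy hcon hdvd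
  obtain ⟨γ, hγ, hγ0⟩ := hex p₀ hp₀
  obtain ⟨ε, hε⟩ : ∃ ε, ε = γ M.d / M.d := ⟨_, rfl⟩
  have hγd : γ M.d = ε * M.d := by rw [hε, div_mul_cancel₀ _ M.d0]
  have hε4 : ε ^ 4 = 1 := by rw [hε]; exact he4 γ
  have hε2 : ε ^ 2 = -1 := by
    rw [hε]
    exact (hsq1 γ).resolve_left fun h => hγ0 (hfix γ hγ h p₀ hp₀)
  have hε0 : ε ≠ 0 := by
    rintro rfl
    norm_num at hε4
  have hinr4 : ∀ σ ∈ Inr q, ∀ z : PadicAlgCl q, z ^ 4 = 1 → σ z = z := fun σ hσ z hz =>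
    hσ z ⟨4, by norm_num, hql4, hz⟩
  have hγε : γ ε = ε := hinr4 γ hγ ε hε4
  have hεn : ‖ε‖ = 1 := by
    rw [hε, norm_div, norm_gal]
    exact div_self (norm_ne_zero_iff.2 M.d0)
  -- `γ` moves all `y p`
  have hmv : ∀ p ∈ S, res γ (y p) ≠ y p := by
    intro p hp hfx
    obtain ⟨γ', hγ', hmove⟩ := hex p hp
    obtain ⟨-, -, -, hsf, hy, -⟩ := hS p hp
    have hε' : (γ' M.d / M.d) ^ 2 = -1 :=
      (hsq1 γ').resolve_left fun h => hmove (hfix γ' hγ' h p hp)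
    have h1 : (γ * γ') M.d / M.d = ε * (γ' M.d / M.d) := by
      have h2 : γ (γ' M.d / M.d) = γ' M.d / M.d := hinr4 γ hγ _ (he4 γ')
      have h3 : γ' M.d = (γ' M.d / M.d) * M.d := by rw [div_mul_cancel₀ _ M.d0]
      rw [AlgEquiv.mul_apply]
      conv_lhs => rw [h3]
      rw [map_mul, h2, hγd, hε]
      field_simp
    have h2 : ((γ * γ') M.d / M.d) ^ 2 = 1 := by
      rw [h1, mul_pow, hε2, hε']
      norm_num
    have h3 := hfix (γ * γ') (mul_mem hγ hγ') h2 p hp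
    rw [map_mul, AlgEquiv.mul_apply] at h3
    have h4 : (res γ' (y p)) ^ 2 = y p ^ 2 := by rw [← map_pow, hy, map_intCast]
    rcases sq_eq_sq_iff_eq_or_eq_neg.1 h4 with h5 | h5
    · exact hmove h5
    · rw [h5, map_neg, hfx] at h3
      apply hmove
      rw [h5, h3]
  -- Frobenius
  obtain ⟨Y, hYd⟩ : ∃ Y : Finset (PadicAlgCl q), Y =
    (Finset.univ.image (fun v : TT E N => cx (M.j v)) ∪
      Finset.univ.image (fun v : TT E N => cy (M.j v))) ∪ {M.W.a₄, M.W.a₆} := ⟨_, rfl⟩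
  have hYx : ∀ v, cx (M.j v) ∈ Y := by
    intro v
    rw [hYd]
    exact Finset.mem_union_left _ (Finset.mem_union_left _
      (Finset.mem_image_of_mem (fun v : TT E N => cx (M.j v)) (Finset.mem_univ v)))
  have hYy : ∀ v, cy (M.j v) ∈ Y := by
    intro v
    rw [hYd]
    exact Finset.mem_union_left _ (Finset.mem_union_right _
      (Finset.mem_image_of_mem (fun v : TT E N => cy (M.j v)) (Finset.mem_univ v)))
  have hY4 : M.W.a₄ ∈ Y := by
    rw [hYd]
    exact Finset.mem_union_right _ (by simp)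
  have hY6 : M.W.a₆ ∈ Y := by
    rw [hYd]
    exact Finset.mem_union_right _ (by simp)
  have hint := fun v => gm_int hq5 M hqN hNT v
  have hY : ∀ x ∈ Y, ‖x‖ ≤ 1 := by
    intro x hx
    rw [hYd] at hx
    simp only [Finset.mem_union, Finset.mem_image, Finset.mem_univ, true_and,
      Finset.mem_insert, Finset.mem_singleton] at hx
    rcases hx with (⟨v, rfl⟩ | ⟨v, rfl⟩) | rfl | rfl
    · exact (hint v).1
    · exact (hint v).2
    · exact hW.h4
    · exact hW.h6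
  obtain ⟨φ, hφpi, hφξ, hφY⟩ := exists_frob 12 (by norm_num) hq12 pi hpi Y hY
  have hφd : φ M.d = M.d := by rw [hd, map_zpow₀, hφpi]
  have hφε : φ ε = ε := by
    rw [hφξ ε (by rw [show (12 : ℕ) = 4 * 3 by norm_num, pow_mul, hε4, one_pow])]
    obtain ⟨n, hn⟩ : ∃ n, q = 4 * n + 1 := ⟨q / 4, by omega⟩
    have h1 : ∀ N : ℕ, N = 4 * n + 1 → ε ^ N = ε := by
      rintro N rfl
      rw [pow_succ, pow_mul, hε4, one_pow, one_mul]
    exact h1 q hn
  have hinv : ∀ σ : GG q, ∀ x, σ x = x → σ⁻¹ x = x := by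
    intro σ x hx
    calc σ⁻¹ x = σ⁻¹ (σ x) := by rw [hx]
      _ = x := by rw [← AlgEquiv.mul_apply, inv_mul_cancel, AlgEquiv.one_apply]
  have hγi : γ⁻¹ M.d = ε⁻¹ * M.d := by
    have h1 : γ (ε⁻¹ * M.d) = M.d := by
      rw [map_mul, map_inv₀, hγε, hγd, ← mul_assoc, inv_mul_cancel₀ hε0, one_mul]
    calc γ⁻¹ M.d = γ⁻¹ (γ (ε⁻¹ * M.d)) := by rw [h1]
      _ = ε⁻¹ * M.d := by rw [← AlgEquiv.mul_apply, inv_mul_cancel, AlgEquiv.one_apply]
  have hcomm : rhoQ E N (res φ) * rhoQ E N (res γ) = rhoQ E N (res γ) * rhoQ E N (res φ) := by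
    obtain ⟨κ, hκ⟩ : ∃ κ, κ = (φ * γ * φ⁻¹) * γ⁻¹ := ⟨_, rfl⟩
    have hκI : κ ∈ Inr q := by
      rw [hκ]
      exact mul_mem (Inr_conj hγ φ) (inv_mem hγ)
    have hκd : κ M.d = M.d := by
      rw [hκ, AlgEquiv.mul_apply, hγi, AlgEquiv.mul_apply, AlgEquiv.mul_apply,
        hinv φ (ε⁻¹ * M.d) (by rw [map_mul, map_inv₀, hφε, hφd]), map_mul, map_inv₀, hγε, hγd,
        ← mul_assoc, inv_mul_cancel₀ hε0, one_mul, hφd]
    have h1 : ((rhoQ E N).comp res) κ = 1 := inr_one hq5 M hqN hNT hκI hκd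
    rw [hκ] at h1
    simp only [map_mul, map_inv, MonoidHom.comp_apply] at h1
    have h2 : rhoQ E N (res φ) * rhoQ E N (res γ) * (rhoQ E N (res φ))⁻¹ = rhoQ E N (res γ) :=
      mul_inv_eq_one.1 h1
    exact (mul_inv_eq_iff_eq_mul.1 h2)
  -- the reduction
  have hE : (Wbar M.W).IsElliptic := Wbar_elliptic hq5 hW
  obtain ⟨red, hrinj, hr⟩ := exists_red hq5 M hqN hNT
  obtain ⟨F, hFinj, hF, hkey⟩ := frob_red hq5 M hqN hNT red hrinj hr φ hφd (fun v => hφY _ (hYx v))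
    (fun v => hφY _ (hYy v)) (hφY _ hY4) (hφY _ hY6)
  have ha6 : (Wbar M.W).a₆ = 0 := by
    show rd M.W.a₆ = 0
    rw [rd_eq_zero_iff hW.h6]
    exact h6
  have hrε : (rd ε) ^ 2 = (-1 : KK q) := by
    rw [← rd_pow hεn.le, hε2, rd_neg (by rw [norm_one]), rd_one]
  obtain ⟨I, hIinj, hI⟩ := exists_twist (Wbar M.W) ha6 (rd ε) hrε
  have hkeyI : ∀ v : TT E N, red ((rhoQ E N (res γ)).1 v) = I (red v) := by
    intro v
    by_cases hv : v = 0
    · rw [hv, map_zero, map_zero, map_zero]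
    have hv' : (rhoQ E N (res γ)).1 v ≠ 0 := by
      intro h0
      apply hv
      apply alb_inj (rhoQ E N (res γ))
      rw [h0, map_zero]
    have hr1 : red ((rhoQ E N (res γ)).1 v) ≠ 0 := by
      intro h0
      apply hv'
      apply hrinj
      rw [h0, map_zero]
    have hr2 : I (red v) ≠ 0 := by
      intro h0
      apply hv
      apply hrinj
      apply hIinj
      rw [h0, map_zero, map_zero]
    obtain ⟨hcx, hcy⟩ := inr_cong hq5 M hqN hNT hγ v
    rw [← hε] at hcx hcy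
    have hi3 : ‖ε ^ 3 * cy (M.j v)‖ ≤ 1 := by
      rw [norm_mul, norm_pow, hεn, one_pow, one_mul]
      exact (hint v).2
    have hi2 : ‖ε ^ 2 * cx (M.j v)‖ ≤ 1 := by
      rw [norm_mul, norm_pow, hεn, one_pow, one_mul]
      exact (hint v).1
    have hi3' : ‖ε ^ 3‖ ≤ 1 := by rw [norm_pow, hεn, one_pow]
    have hi2' : ‖ε ^ 2‖ ≤ 1 := by rw [norm_pow, hεn, one_pow]
    apply ext_coord hr1 hr2
    · rw [(hr _).1, (hI _).1, (hr v).1]
      refine ((rd_eq_iff (hint _).1 hi2).2 hcx).trans ?_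
      rw [rd_mul hi2' (hint v).1, rd_pow hεn.le, hrε]
      ring
    · rw [(hr _).2, (hI _).2, (hr v).2]
      refine ((rd_eq_iff (hint _).2 hi3).2 hcy).trans ?_
      rw [rd_mul hi3' (hint v).2, rd_pow hεn.le]
  have hkey' : ∀ v : TT E N, red ((rhoQ E N (res φ)).1 v) = F (red v) := fun v => hkey v
  -- one of the two maps is a scalar on `E[p]`
  have hsc : ∀ p ∈ S, ScOn (Wbar M.W) F p ∨ ScOn (Wbar M.W) (F.comp I) p := by
    intro p hp
    have hfp : Fact p.Prime := ⟨hSp p hp⟩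
    obtain ⟨-, -, hnw, -, -, -⟩ := hS p hp
    obtain ⟨k, i1, i2, e, m', s, hk, hNs, hmsq, hs, hms, hys⟩ := nonsplitWith_data E hnw
    have hγs : IsSemi e p (rhoQ E p (res γ)) :=
      (hNs (res γ)).resolve_left fun h => hmv p hp ((hys (res γ)).2 ((hms (res γ)).1 h))
    have hcp : rhoQ E p (res φ) * rhoQ E p (res γ) = rhoQ E p (res γ) * rhoQ E p (res φ) := by
      refine Units.ext (AddMonoidHom.ext fun v => ?_)
      show (rhoQ E p (res φ) * rhoQ E p (res γ)).1 v = (rhoQ E p (res γ) * rhoQ E p (res φ)).1 v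
      apply incl_inj E (hdp p hp)
      rw [alb_mul_apply, alb_mul_apply, incl_rho, incl_rho, incl_rho, incl_rho, ← alb_mul_apply,
        ← alb_mul_apply, hcomm]
    let _ : Fintype (TT E p) := Fintype.ofEquiv k e.symm.toEquiv
    have hV : Fintype.card (TT E p) = p ^ 2 := by
      rw [← hk]
      exact Fintype.card_congr e.toEquiv
    have hinj : Function.Injective (red.comp (incl E (hdp p hp))) :=
      hrinj.comp (incl_inj E (hdp p hp))
    rcases hNs (res φ) with hφl | hφs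
    · left
      obtain ⟨c, hc⟩ := sc_of_comm hk hγs hφl hcp
      refine ⟨TT E p, inferInstance, inferInstance, red.comp (incl E (hdp p hp)), c, hV,
        tt_smul E p, hinj, fun v => ?_⟩
      show F (red (incl E (hdp p hp) v)) = c • red (incl E (hdp p hp) v)
      rw [← hkey', ← incl_rho, hc, map_nsmul, map_nsmul]
    · right
      have hτl : IsLin e (rhoQ E p (res φ) * rhoQ E p (res γ)) := semi_mul_semi hk hφs hγs
      have hτc : (rhoQ E p (res φ) * rhoQ E p (res γ)) * rhoQ E p (res γ) =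
          rhoQ E p (res γ) * (rhoQ E p (res φ) * rhoQ E p (res γ)) := by
        rw [← mul_assoc, hcp]
      obtain ⟨c, hc⟩ := sc_of_comm hk hγs hτl hτc
      refine ⟨TT E p, inferInstance, inferInstance, red.comp (incl E (hdp p hp)), c, hV,
        tt_smul E p, hinj, fun v => ?_⟩
      show F (I (red (incl E (hdp p hp) v))) = c • red (incl E (hdp p hp) v)
      rw [← hkeyI, ← hkey', ← incl_rho, ← incl_rho, ← alb_mul_apply, hc, map_nsmul, map_nsmul]
  have hodd' : Odd q := hq.odd_of_ne_two (by omega)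
  have hb1 := tw_all q hq5 (Wbar M.W) F hFinj 1 1 one_ne_zero
    (fun R => by rw [one_mul, one_mul]; exact hF R) (S.filter fun p => ScOn (Wbar M.W) F p)
    (fun p hp => hSp p (Finset.mem_filter.1 hp).1) (fun p hp => (Finset.mem_filter.1 hp).2)
  have hb2 := tw_all q hq5 (Wbar M.W) (F.comp I) (hFinj.comp hIinj) (-1) ((rd ε) ^ (3 * q))
    (neg_ne_zero.2 one_ne_zero) (fun R => by
      constructor
      · show cx (F (I R)) = _
        rw [(hF _).1, (hI _).1, hodd'.neg_pow]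
        ring
      · show cy (F (I R)) = _
        rw [(hF _).2, (hI _).2, mul_pow, ← pow_mul])
    (S.filter fun p => ¬ ScOn (Wbar M.W) F p)
    (fun p hp => hSp p (Finset.mem_filter.1 hp).1)
    (fun p hp => (hsc p (Finset.mem_filter.1 hp).1).resolve_left (Finset.mem_filter.1 hp).2)
  have h7 : (∏ p ∈ S, p) ^ 2 ≤ (4 * q) ^ 2 := by
    rw [← Finset.prod_filter_mul_prod_filter_not S (fun p => ScOn (Wbar M.W) F p), mul_pow, sq (4 * q)]
    exact Nat.mul_le_mul hb1 hb2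
  exact (Nat.pow_le_pow_iff_left two_ne_zero).1 h7

end Pool.Agent.H80.CPP
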