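import Pool.Agent.H80.CPP.Gen
import Pool.Agent.H80.CPP.QRam

/-!
# Products of nonsplit primes: the core
-/

set_option autoImplicit false

namespace Pool.Agent.H80.CPP

open NumberField Pool.Agent.H27.SU Pool.Agent.H85.CP Pool.Agent.H82.HW Pool.Agent.H82.SV
  Pool.Agent.H82.SW Pool.Agent.H82.SX Pool.Agent.H82.MU
open scoped Classical

/-- a Cartan field ramified at a prime `q ≡ 1` modulo `4` -/
theorem step2 (E : WeierstrassCurve ℚ) [E.IsElliptic] (hj0 : E.j ≠ 0) (hj1 : E.j ≠ 1728)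
    (r : ℕ) [Fact r.Prime] [NumberField (LX E r)] (S : Finset ℕ) (y : ℕ → QB) (m : ℕ → ℤ)
    (hS : ∀ p ∈ S, 29 ≤ p ∧ NonsplitWith E p (y p) ∧ Squarefree (m p) ∧ y p ^ 2 = (m p : QB))
    {p₀ : ℕ} (hp₀ : p₀ ∈ S) {q : ℕ} (hq : q.Prime) (hq4 : q % 4 = 1) (hqr : q ≠ r)
    (hqm : (q : ℤ) ∣ m p₀) : 5 ≤ (discr (LX E r)).natAbs ∧ ∃ τ : GQ, τ (y p₀) ≠ y p₀ ∧
      ∏ p ∈ S with τ (y p) ≠ y p, p ≤ (discr (LX E r)).natAbs ^ 2 := by
  have hfq : Fact q.Prime := ⟨hq⟩
  have hq5 : 5 ≤ q := by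
    have h2 := hq.two_le
    omega
  obtain ⟨hp29, hnw, hsf, hsm⟩ := hS p₀ hp₀
  obtain ⟨-, -, hval⟩ := m_data E hj0 hj1 hp29 hnw hsf hsm
  obtain ⟨hpos, hodd, hj⟩ := hval q hq hq5 hqm
  obtain ⟨-, hLG, -⟩ := LX_galois E r
  have hqD : q ∣ (discr (LX E r)).natAbs := Int.natCast_dvd.1 (ram_dvd E hj1 r q hq5 hqr hpos hodd)
  have hD0 : (discr (LX E r)).natAbs ≠ 0 := Int.natAbs_ne_zero.2 (discr_ne_zero _)
  have hqD' : q ≤ (discr (LX E r)).natAbs := Nat.le_of_dvd (Nat.pos_of_ne_zero hD0) hqD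
  refine ⟨hq5.trans hqD', ?_⟩
  obtain ⟨ι, res, hres⟩ := exists_restr q
  obtain ⟨γ, hγ, hγ0⟩ : ∃ γ ∈ Inr q, res γ (y p₀) ≠ y p₀ := by
    by_contra hcon
    push Not at hcon
    exact not_dvd_of_inertia ι res hres (m p₀) hsf (y p₀) hsm hcon hqm
  refine ⟨res γ, hγ0, ?_⟩
  have h1 := t3_prod E hj1 q hq4 hj hodd (S.filter fun p => res γ (y p) ≠ y p) y m (fun p hp => by
    obtain ⟨hpS, hmv⟩ := Finset.mem_filter.1 hp
    obtain ⟨hp29', hnw', hsf', hsm'⟩ := hS p hpS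
    obtain ⟨-, hpm, -⟩ := m_data E hj0 hj1 hp29' hnw' hsf' hsm'
    have hqm' : (q : ℤ) ∣ m p := by
      by_contra hd
      apply hmv
      apply ι.toRingHom.injective
      show ι (res γ (y p)) = ι (y p)
      rw [hres]
      exact inr_fix_sqrt (by omega) hd (by rw [← map_pow, hsm', map_intCast]) hγ
    refine ⟨by omega, ?_, hnw', hsf', hsm', hqm'⟩
    rintro rfl
    exact hpm hqm')
  refine h1.trans ?_
  rw [sq]
  exact Nat.mul_le_mul (by omega) hqD'

open scoped Classical in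
/-- the product of nonsplit primes `≥ 29` -/
theorem cpp_core (r : ℕ) [Fact r.Prime] : ∃ A : ℕ, ∀ (E : WeierstrassCurve ℚ) [E.IsElliptic],
    E.j ≠ 0 → E.j ≠ 1728 → ∀ [NumberField (LX E r)] (S : Finset ℕ) (y : ℕ → QB) (m : ℕ → ℤ)
      (k : ℕ), (∀ p ∈ S, 29 ≤ p ∧ NonsplitWith E p (y p) ∧ Squarefree (m p) ∧
        y p ^ 2 = (m p : QB) ∧ ((∃ σ : GQ, σ (y p) ≠ y p ∧ ¬ SqSc E r σ) ∨
          ∃ q : ℕ, q.Prime ∧ q % 4 = 1 ∧ q ≠ r ∧ (q : ℤ) ∣ m p)) →
    Module.finrank ℚ (IntermediateField.adjoin ℚ (y '' (S : Set ℕ))) ≤ 2 ^ k →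
    ∏ p ∈ S, p ≤ (discr (LX E r)).natAbs ^ (A * k) := by
  obtain ⟨A, hA⟩ := step r
  refine ⟨A + 2, ?_⟩
  intro E _ hj0 hj1 _ S y m k hS hfin
  rw [pow_mul]
  have hD : 1 ≤ (discr (LX E r)).natAbs :=
    Nat.one_le_iff_ne_zero.2 (Int.natAbs_ne_zero.2 (discr_ne_zero _))
  refine prod_bd y _ (Nat.one_le_pow _ _ hD) k S (fun p hp => ?_) (fun p hp => ?_) hfin
  · have := (hS p hp).1
    omega
  · rcases (hS p hp).2.2.2.2 with h | ⟨q, hq, hq4, hqr, hqm⟩
    · obtain ⟨τ, h1, h2⟩ := hA E hj0 hj1 S y (fun p hp => ⟨(hS p hp).1, (hS p hp).2.1⟩) p hp h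
      exact ⟨τ, h1, h2.trans (Nat.pow_le_pow_right hD (by omega))⟩
    · obtain ⟨-, τ, h1, h2⟩ := step2 E hj0 hj1 r S y m (fun p hp => ⟨(hS p hp).1, (hS p hp).2.1,
        (hS p hp).2.2.1, (hS p hp).2.2.2.1⟩) hp hq hq4 hqr hqm
      exact ⟨τ, h1, h2.trans (Nat.pow_le_pow_right hD (by omega))⟩

/-- every nonsplit prime has a Cartan field -/
theorem cart_ex (E : WeierstrassCurve ℚ) [E.IsElliptic] {p : ℕ} [hfp : Fact p.Prime] (h5 : 5 ≤ p)
    (hE : InNonsplitNormaliser E p) : ∃ K : IntermediateField ℚ QB, CartanField E p K := by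
  obtain ⟨e, he⟩ := hE
  have hfin : Fintype (GaloisField p 2) := Fintype.ofFinite _
  have hk : Fintype.card (GaloisField p 2) = p ^ 2 := by
    have := GaloisField.card p 2 (by norm_num)
    rw [Nat.card_eq_fintype_card] at this
    exact this
  have hN : ∀ σ, IsLin e (rhoQ E p σ) ∨ IsSemi e p (rhoQ E p σ) := by
    intro σ
    rcases he σ with ⟨c, hc⟩ | ⟨c, hc⟩
    · left
      exact ⟨c, fun v => hc v ((rhoQ E p σ).1 v) (rhoQ_coe E p σ v).symm⟩
    · right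
      exact ⟨c, fun v => hc v ((rhoQ E p σ).1 v) (rhoQ_coe E p σ v).symm⟩
  obtain ⟨m, s, hmsq, hs, hms⟩ := qf_exists E e hk hN
  have hm0 := qf_neg E h5 e hk hmsq hs hms
  have hfixK : ∀ σ : GQ, (∀ x ∈ IntermediateField.adjoin ℚ ({s} : Set QB), σ x = x) ↔ σ s = s := by
    intro σ
    constructor
    · intro h
      exact h s (IntermediateField.mem_adjoin_simple_self ℚ s)
    · intro h x hx
      have h1 : IntermediateField.adjoin ℚ ({s} : Set QB) ≤
          IntermediateField.fixedField (Subgroup.zpowers σ) := by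
        rw [IntermediateField.adjoin_le_iff, Set.singleton_subset_iff]
        show s ∈ IntermediateField.fixedField (Subgroup.zpowers σ)
        rw [IntermediateField.mem_fixedField_iff]
        intro f hf
        have hle : Subgroup.zpowers σ ≤ MulAction.stabilizer GQ s := by
          rw [Subgroup.zpowers_le]
          exact h
        exact hle hf
      have h2 := h1 hx
      rw [IntermediateField.mem_fixedField_iff] at h2
      exact h2 σ (Subgroup.mem_zpowers σ)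
  refine ⟨IntermediateField.adjoin ℚ {s}, ?_, hfp, e, fun σ => ⟨fun h => ?_, fun h => ?_⟩⟩
  · have hAlg : Algebra.IsAlgebraic ℚ QB := AlgebraicClosure.isAlgebraic ℚ
    have hint : IsIntegral ℚ s := (hAlg.isAlgebraic s).isIntegral
    have hle : Module.finrank ℚ (IntermediateField.adjoin ℚ ({s} : Set QB)) ≤ 2 := by
      have h1 := finrank_adj {s} (fun x hx => by
        rw [Finset.mem_singleton] at hx
        exact ⟨m, by rw [hx, hs]⟩)
      rwa [Finset.coe_singleton, Finset.card_singleton, pow_one] at h1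
    have hfd : FiniteDimensional ℚ (IntermediateField.adjoin ℚ ({s} : Set QB)) :=
      IntermediateField.adjoin.finiteDimensional hint
    have hpos : 0 < Module.finrank ℚ (IntermediateField.adjoin ℚ ({s} : Set QB)) :=
      Module.finrank_pos
    have hne : Module.finrank ℚ (IntermediateField.adjoin ℚ ({s} : Set QB)) ≠ 1 := by
      intro h1
      obtain ⟨τ, hτ⟩ := exists_moves hm0 hs
      apply hτ
      have h2 : IntermediateField.adjoin ℚ ({s} : Set QB) = ⊥ :=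
        IntermediateField.finrank_eq_one_iff.1 h1
      have h3 : s ∈ IntermediateField.adjoin ℚ ({s} : Set QB) :=
        IntermediateField.mem_adjoin_simple_self ℚ s
      rw [h2] at h3
      obtain ⟨a, ha⟩ := IntermediateField.mem_bot.1 h3
      rw [← ha, AlgEquiv.commutes]
    exact le_antisymm hle (lt_of_le_of_ne hpos (Ne.symm hne))
  · rcases he σ with ⟨c, hc⟩ | ⟨c, hc⟩
    · exact ⟨c, hc⟩
    · exfalso
      exact not_lin_semi e hk ((hms σ).2 ((hfixK σ).1 h))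
        ⟨c, fun v => hc v ((rhoQ E p σ).1 v) (rhoQ_coe E p σ v).symm⟩
  · rcases he σ with ⟨c, hc⟩ | ⟨c, hc⟩
    · exfalso
      obtain ⟨x, hx, hne⟩ := h
      refine hne ((hfixK σ).2 ((hms σ).1 ?_) x hx)
      exact ⟨c, fun v => hc v ((rhoQ E p σ).1 v) (rhoQ_coe E p σ v).symm⟩
    · exact ⟨c, hc⟩

end Pool.Agent.H80.CPP
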