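import Mathlib

/-!
# Nonsplit primes with their Cartan fields: definition
-/

set_option autoImplicit false

namespace Pool.Agent.H80.CPP

open WeierstrassCurve

open scoped Classical in
/-- `p` is a prime, nonsplit for `E` with Cartan field `ℚ(y)`: for some isomorphism `e` of `E[p]`
with the additive group of the field `F_{p²}`, every `σ ∈ G_ℚ` which fixes `y` acts on `E[p]` as
`v ↦ c v`, every `σ` which moves `y` acts as `v ↦ c v^p` (`c ∈ F_{p²}`). -/
def NonsplitWith (E : WeierstrassCurve ℚ) (p : ℕ) (y : AlgebraicClosure ℚ) : Prop :=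
  let T := AddSubgroup.torsionBy (E.baseChange (AlgebraicClosure ℚ)).toAffine.Point (p : ℤ)
  ∃ (_ : Fact p.Prime) (e : T ≃+ GaloisField p 2),
    ∀ σ : AlgebraicClosure ℚ ≃ₐ[ℚ] AlgebraicClosure ℚ,
    (σ y = y → ∃ c : GaloisField p 2, ∀ P Q : T,
      Affine.Point.map (W' := E) σ.toAlgHom P.val = Q.val → e Q = c * e P) ∧
    (σ y ≠ y → ∃ c : GaloisField p 2, ∀ P Q : T,
      Affine.Point.map (W' := E) σ.toAlgHom P.val = Q.val → e Q = c * e P ^ p)

end Pool.Agent.H80.CPP
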