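import Pool.Agent.H85.CP.GrC

/-!
# `r = 2`, no rational point of order `2` (the lemmas are those of H85/CP/GrC)
-/

set_option autoImplicit false

namespace Pool.Agent.H80.CPP

open Pool.Agent.H27.SU Pool.Agent.H80.CP Pool.Agent.H85.CP WeierstrassCurve
open scoped Classical

private theorem moves {m : ℤ} (hm : m < 0) {y : QB} (hy : y ^ 2 = (m : QB)) :
    ∃ τ : GQ, τ y ≠ y := by
  by_contra hcon
  push Not at hcon
  obtain ⟨q, hq⟩ := fixed_rat y hcon
  rw [hq] at hy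
  have h1 : (q ^ 2 : ℚ) = (m : ℚ) := by exact_mod_cast hy
  have h2 : (0 : ℚ) ≤ q ^ 2 := sq_nonneg q
  have h3 : (m : ℚ) < 0 := by exact_mod_cast hm
  linarith

private theorem delta_sq (W : WeierstrassCurve QB) {x₁ x₂ x₃ : QB} (h12 : x₁ ≠ x₂)
    (h13 : x₁ ≠ x₃) (h23 : x₂ ≠ x₃) (h1 : 4 * x₁ ^ 3 + W.b₂ * x₁ ^ 2 + 2 * W.b₄ * x₁ + W.b₆ = 0)
    (h2 : 4 * x₂ ^ 3 + W.b₂ * x₂ ^ 2 + 2 * W.b₄ * x₂ + W.b₆ = 0)
    (h3 : 4 * x₃ ^ 3 + W.b₂ * x₃ ^ 2 + 2 * W.b₄ * x₃ + W.b₆ = 0) :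
    (4 * ((x₁ - x₂) * (x₁ - x₃) * (x₂ - x₃))) ^ 2 = W.Δ := by
  have e12 : 4 * (x₁ ^ 2 + x₁ * x₂ + x₂ ^ 2) + W.b₂ * (x₁ + x₂) + 2 * W.b₄ = 0 := by
    apply mul_left_cancel₀ (sub_ne_zero.2 h12)
    linear_combination h1 - h2
  have e13 : 4 * (x₁ ^ 2 + x₁ * x₃ + x₃ ^ 2) + W.b₂ * (x₁ + x₃) + 2 * W.b₄ = 0 := by
    apply mul_left_cancel₀ (sub_ne_zero.2 h13)
    linear_combination h1 - h3
  have e : 4 * (x₁ + x₂ + x₃) + W.b₂ = 0 := by
    apply mul_left_cancel₀ (sub_ne_zero.2 h23)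
    linear_combination e12 - e13
  have hb2 : W.b₂ = -4 * (x₁ + x₂ + x₃) := by linear_combination e
  have hb4 : W.b₄ = 2 * (x₁ * x₂ + x₁ * x₃ + x₂ * x₃) := by
    rw [hb2] at e12
    linear_combination (1 / 2 : QB) * e12
  have hb6 : W.b₆ = -4 * (x₁ * x₂ * x₃) := by
    rw [hb2, hb4] at h1
    linear_combination h1
  have hd := W.twoTorsionPolynomial_discr
  rw [twoTorsionPolynomial, Cubic.discr] at hd
  simp only at hd
  rw [hb2, hb4, hb6] at hd
  have h16 : (16 : QB) ≠ 0 := by norm_num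
  apply mul_left_cancel₀ h16
  rw [← hd]
  ring

section V4

variable {V : Type} [AddCommGroup V]

private theorem span4 (hc : Nat.card V = 4) (h2 : ∀ v : V, v + v = 0) {w x : V} (hw : w ≠ 0)
    (hx : x ≠ 0) (hxw : x ≠ w) (z : V) : z = 0 ∨ z = w ∨ z = x ∨ z = w + x := by
  classical
  have hfin : Finite V := Nat.finite_of_card_ne_zero (by rw [hc]; norm_num)
  let _ : Fintype V := Fintype.ofFinite V
  have hwx : w + x ≠ 0 := by
    intro h
    apply hxw
    have h3 := h2 w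
    rw [← h] at h3
    exact (add_left_cancel h3).symm
  have h3 : w + x ≠ w := fun h => hx (add_eq_left.1 h)
  have h4 : w + x ≠ x := fun h => hw (add_eq_right.1 h)
  have hcard : ({0, w, x, w + x} : Finset V).card = 4 := by
    rw [Finset.card_insert_of_notMem, Finset.card_insert_of_notMem, Finset.card_insert_of_notMem,
      Finset.card_singleton]
    · rw [Finset.mem_singleton]
      exact h4.symm
    · rw [Finset.mem_insert, Finset.mem_singleton]
      rintro (h | h)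
      · exact hxw h.symm
      · exact h3 h.symm
    · rw [Finset.mem_insert, Finset.mem_insert, Finset.mem_singleton]
      rintro (h | h | h)
      · exact hw h.symm
      · exact hx h.symm
      · exact hwx h.symm
  have huniv : ({0, w, x, w + x} : Finset V) = Finset.univ := by
    rw [← Finset.card_eq_iff_eq_univ, hcard, ← hc, Nat.card_eq_fintype_card]
  have hz : z ∈ ({0, w, x, w + x} : Finset V) := by
    rw [huniv]
    exact Finset.mem_univ z
  simpa only [Finset.mem_insert, Finset.mem_singleton] using hz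

private theorem swap4 (hc : Nat.card V = 4) (h2 : ∀ v : V, v + v = 0) (a : Au V) {w : V}
    (hw : w ≠ 0) (haw : a.1 w = w) (hmov : ∃ x, a.1 x ≠ x) {x : V} (hx : x ≠ 0) (hxw : x ≠ w) :
    a.1 x = w + x := by
  have hzero : a.1 0 = 0 := map_zero a.1
  rcases span4 hc h2 hw hx hxw (a.1 x) with h | h | h | h
  · exact absurd (alb_inj a (h.trans hzero.symm)) hx
  · exact absurd (alb_inj a (h.trans haw.symm)) hxw
  · exfalso
    obtain ⟨z, hz⟩ := hmov
    apply hz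
    rcases span4 hc h2 hw hx hxw z with h' | h' | h' | h'
    · rw [h', hzero]
    · rw [h', haw]
    · rw [h', h]
    · rw [h']
      refine (map_add a.1 w x).trans ?_
      rw [haw, h]
  · exact h

/-- two non trivial elements with different fixed vectors have a fixed point free product -/
private theorem prod4 (hc : Nat.card V = 4) (h2 : ∀ v : V, v + v = 0) (a b : Au V) {w u : V}
    (hw : w ≠ 0) (hu : u ≠ 0) (huw : u ≠ w) (haw : a.1 w = w) (hbu : b.1 u = u)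
    (ha : ∃ x, a.1 x ≠ x) (hb : ∃ x, b.1 x ≠ x) {z : V} (hz : z ≠ 0) : (a * b).1 z ≠ z := by
  have h1 := swap4 hc h2 a hw haw ha hu huw
  have h3 := swap4 hc h2 b hu hbu hb hw huw.symm
  have haadd : a.1 (u + w) = a.1 u + a.1 w := map_add a.1 u w
  have hbadd : b.1 (w + u) = b.1 w + b.1 u := map_add b.1 w u
  rw [alb_mul_apply]
  rcases span4 hc h2 hw hu huw z with h | h | h | h
  · exact absurd h hz
  · rw [h, h3, haadd, h1, haw, add_assoc, add_comm u w, ← add_assoc, h2, zero_add]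
    exact huw
  · rw [h, hbu, h1]
    exact fun h' => hw (add_eq_right.1 h')
  · rw [h, hbadd, h3, hbu, add_assoc, add_comm w u, ← add_assoc, h2, zero_add, haw]
    exact fun h' => hu (add_eq_right.1 h'.symm)

private theorem nsc4 (h2 : ∀ v : V, v + v = 0) (a : Au V)
    (ha : ∀ v, v ≠ 0 → a.1 v ≠ v) {v : V} (hv : v ≠ 0) (n : ℤ) :
    ¬ ∀ x, a.1 (a.1 x) = n • x := by
  intro h
  have hzero : a.1 0 = 0 := map_zero a.1
  have hne : a.1 v ≠ 0 := fun h' => hv (alb_inj a (h'.trans hzero.symm))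
  have h2n : ∀ (k : ℤ) (x : V), (2 * k) • x = 0 := by
    intro k x
    rw [mul_comm, mul_smul, two_smul, h2, smul_zero]
  rcases Int.even_or_odd' n with ⟨k, hk | hk⟩
  · have h3 := h v
    rw [hk, h2n] at h3
    exact hne (alb_inj a (h3.trans hzero.symm))
  · have h3 := h v
    rw [hk, add_smul, h2n, one_smul, zero_add] at h3
    have h4 : v + a.1 v ≠ 0 := by
      intro h5
      apply ha v hv
      have h6 := h2 v
      rw [← h5] at h6
      exact (add_left_cancel h6).symm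
    apply ha _ h4
    refine (map_add a.1 v (a.1 v)).trans ?_
    rw [h3, add_comm]

end V4

private theorem card4 (E : WeierstrassCurve ℚ) [E.IsElliptic] : Nat.card (TT E 2) = 4 := by
  rw [card_TT E 2 (by norm_num)]
  norm_num

private theorem two4 (E : WeierstrassCurve ℚ) (v : TT E 2) : v + v = 0 := by
  apply Subtype.ext
  have h1 : ((2 : ℕ) : ℤ) • v.1 = 0 := v.2
  rw [natCast_zsmul, two_nsmul] at h1
  exact h1

private theorem exists_three (E : WeierstrassCurve ℚ) [E.IsElliptic]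
    (h2 : ∀ v : TT E 2, (∀ σ : GQ, (rhoQ E 2 σ).1 v = v) → v = 0) :
    ∃ γ : GQ, ∀ v : TT E 2, v ≠ 0 → (rhoQ E 2 γ).1 v ≠ v := by
  by_contra hcon
  push Not at hcon
  have : Fact (Nat.Prime 2) := ⟨Nat.prime_two⟩
  obtain ⟨v, -, hv, -, -⟩ := two_points E 2
  have h3 : ∀ w : TT E 2, w ≠ 0 → ∃ σ : GQ, (rhoQ E 2 σ).1 w ≠ w := by
    intro w hw
    by_contra h4
    push Not at h4
    exact hw (h2 w h4)
  obtain ⟨a, ha⟩ := h3 v hv
  obtain ⟨w, hw, haw⟩ := hcon a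
  obtain ⟨b, hb⟩ := h3 w hw
  obtain ⟨u, hu, hbu⟩ := hcon b
  have huw : u ≠ w := by
    rintro rfl
    exact hb hbu
  obtain ⟨z, hz, habz⟩ := hcon (a * b)
  rw [map_mul] at habz
  exact prod4 (card4 E) (two4 E) _ _ hw hu huw haw hbu ⟨v, ha⟩ ⟨w, hb⟩ hz habz

/-- the square root of the discriminant and the parity of the permutation of the points of order `2` -/
private theorem exists_delta (E : WeierstrassCurve ℚ) [E.IsElliptic] : ∃ δ : QB,
    δ ^ 2 = ((E.Δ : ℚ) : QB) ∧ ∀ σ : GQ, σ δ = δ →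
      (∀ v : TT E 2, (rhoQ E 2 σ).1 v = v) ∨ ∀ v : TT E 2, v ≠ 0 → (rhoQ E 2 σ).1 v ≠ v := by
  have : Fact (Nat.Prime 2) := ⟨Nat.prime_two⟩
  have hc := card4 E
  have h2 := two4 E
  obtain ⟨v, w, hv, hw, hvw⟩ := two_points E 2
  have hne3 : v + w ≠ 0 := by
    intro h
    have h3 := h2 v
    rw [← h] at h3
    exact hvw (add_left_cancel h3)
  have hx : ∀ s t : TT E 2, s ≠ 0 → t ≠ 0 → s ≠ t → cx s.1 ≠ cx t.1 := by
    intro s t hs ht hst hcx
    have hs1 : s.1 ≠ 0 := fun h0 => hs (Subtype.ext h0)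
    have ht1 : t.1 ≠ 0 := fun h0 => ht (Subtype.ext h0)
    rcases eq_or_neg hs1 ht1 hcx with h | h
    · exact hst (Subtype.ext h)
    · apply hst
      have h4 : s = -t := Subtype.ext h
      rw [h4]
      exact neg_eq_of_add_eq_zero_left (h2 t)
  have hv3 : v ≠ v + w := fun h => hw (add_eq_left.1 h.symm)
  have hw3 : w ≠ v + w := fun h => hv (add_eq_right.1 h.symm)
  obtain ⟨δ, hδ⟩ : ∃ δ : QB, δ = 4 * ((cx v.1 - cx w.1) * (cx v.1 - cx (v + w).1) *
    (cx w.1 - cx (v + w).1)) := ⟨_, rfl⟩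
  have hsq : δ ^ 2 = ((E.Δ : ℚ) : QB) := by
    rw [hδ, delta_sq (E.baseChange QB) (hx v w hv hw hvw) (hx v _ hv hne3 hv3)
      (hx w _ hw hne3 hw3) (root_of_two E v hv) (root_of_two E w hw) (root_of_two E _ hne3)]
    show (E.map (algebraMap ℚ QB)).Δ = _
    rw [WeierstrassCurve.map_Δ]
    exact eq_ratCast (algebraMap ℚ QB) E.Δ
  have hδ0 : δ ≠ 0 := by
    intro h0
    rw [h0] at hsq
    have h3 : E.Δ ≠ 0 := E.isUnit_Δ.ne_zero
    apply h3
    have h4 : ((E.Δ : ℚ) : QB) = 0 := by rw [← hsq]; norm_num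
    exact_mod_cast h4
  refine ⟨δ, hsq, fun σ hσ => ?_⟩
  have hmap : σ δ = 4 * ((cx ((rhoQ E 2 σ).1 v).1 - cx ((rhoQ E 2 σ).1 w).1) *
      (cx ((rhoQ E 2 σ).1 v).1 - cx ((rhoQ E 2 σ).1 (v + w)).1) *
      (cx ((rhoQ E 2 σ).1 w).1 - cx ((rhoQ E 2 σ).1 (v + w)).1)) := by
    rw [hδ, rhoQ_cx, rhoQ_cx, rhoQ_cx]
    simp only [map_mul, map_sub, map_ofNat]
  by_contra hcon
  rw [not_or] at hcon
  obtain ⟨hmov, hfix⟩ := hcon
  push Not at hmov hfix
  obtain ⟨t, ht, hat⟩ := hfix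
  have hsw : ∀ x : TT E 2, x ≠ 0 → x ≠ t → (rhoQ E 2 σ).1 x = t + x := fun x hx0 hxt =>
    swap4 hc h2 (rhoQ E 2 σ) ht hat hmov hx0 hxt
  have hneg : σ δ = -δ := by
    rw [hmap]
    rcases span4 hc h2 hv hw hvw.symm t with h | h | h | h
    · exact absurd h ht
    · subst h
      have e1 := hsw w hw hvw.symm
      have e2 := hsw (t + w) hne3 hv3.symm
      rw [← add_assoc, h2, zero_add] at e2
      rw [hat, e1, e2, hδ]
      ring
    · subst h
      have e1 := hsw v hv hvw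
      have e2 := hsw (v + t) hne3 hw3.symm
      rw [add_comm v t, ← add_assoc, h2, zero_add] at e2
      rw [hat, e1, add_comm v t, e2, hδ, add_comm v t]
      ring
    · subst h
      have e1 := hsw v hv hv3
      have e2 := hsw w hw hw3
      rw [add_comm v w, add_assoc, h2, add_zero] at e1
      rw [add_assoc, h2, add_zero] at e2
      rw [hat, e1, e2, hδ]
      ring
  rw [hneg] at hσ
  apply hδ0
  have h5 : (2 : QB) * δ = 0 := by linear_combination -hσ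
  rcases mul_eq_zero.1 h5 with h6 | h6
  · norm_num at h6
  · exact h6

private theorem exists_even {D : ℚ} (hD0 : D ≠ 0)
    {δ : QB} (hδ : δ ^ 2 = (D : QB)) {m : ℤ} (hm : m < 0)
    (hD : 0 < D ∨ ∃ q : ℕ, q.Prime ∧ ¬ (q : ℤ) ∣ m ∧ Odd (padicValRat q D)) {y : QB}
    (hy : y ^ 2 = (m : QB)) :
    ∃ τ : GQ, τ δ = δ ∧ τ y ≠ y := by
  by_contra hcon
  push Not at hcon
  obtain ⟨a, ha⟩ := moves hm hy
  have hpm : ∀ (σ : GQ) (x : QB) (c : QB), x ^ 2 = c → σ c = c → σ x = x ∨ σ x = -x := by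
    intro σ x c hx hc
    apply sq_eq_sq_iff_eq_or_eq_neg.1
    rw [← map_pow, hx, hc]
  have hy' : ∀ σ : GQ, σ y = y ∨ σ y = -y := fun σ => hpm σ y _ hy (map_intCast σ m)
  have hδ' : ∀ σ : GQ, σ δ = δ ∨ σ δ = -δ := fun σ => hpm σ δ _ hδ (map_ratCast σ D)
  have hay : a y = -y := (hy' a).resolve_left ha
  have haδ : a δ = -δ := (hδ' a).resolve_left (fun h => ha (hcon a h))
  have hfix : ∀ b : GQ, b (y * δ) = y * δ := by
    intro b
    rw [map_mul]
    rcases hδ' b with h | h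
    · rw [h, hcon b h]
    · have h1 : (a * b) δ = δ := by
        rw [AlgEquiv.mul_apply, h, map_neg, haδ, neg_neg]
      have h3 := hcon _ h1
      rw [AlgEquiv.mul_apply] at h3
      rcases hy' b with h4 | h4
      · rw [h4] at h3
        exact absurd h3 ha
      · rw [h4, h]
        ring
  obtain ⟨q, hq⟩ := fixed_rat _ hfix
  have h5 : (q ^ 2 : ℚ) = m * D := by
    have h6 : ((q : QB)) ^ 2 = (m : QB) * (D : QB) := by
      rw [← hq, mul_pow, hy, hδ]
    exact_mod_cast h6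
  have hmneg : (m : ℚ) < 0 := by exact_mod_cast hm
  rcases hD with hpos | ⟨p, hp, hpm, hodd⟩
  · have h6 : (m : ℚ) * D < 0 := mul_neg_of_neg_of_pos hmneg hpos
    have h7 : (0 : ℚ) ≤ q ^ 2 := sq_nonneg q
    linarith
  · have : Fact p.Prime := ⟨hp⟩
    have hq0 : q ≠ 0 := by
      rintro rfl
      have h6 : (m : ℚ) * D ≠ 0 := mul_ne_zero hmneg.ne hD0
      exact h6 (by rw [← h5]; norm_num)
    have h8 : padicValRat p (q ^ 2) = padicValRat p ((m : ℚ) * D) := by rw [h5]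
    rw [sq, padicValRat.mul hq0 hq0, padicValRat.mul hmneg.ne hD0, padicValRat.of_int,
      padicValInt.eq_zero_of_not_dvd hpm] at h8
    rw [show ((0 : ℕ) : ℤ) + padicValRat p D = padicValRat p D by simp] at h8
    rw [← h8] at hodd
    exact (Int.not_even_iff_odd.2 hodd) (Even.add_self _)

/-- `r = 2`, no rational point of order `2`: `ℚ(√m)`, `m < 0`, is not dihedral for `E[2]` if `Δ > 0`
or `v_q(Δ)` is odd for a prime `q` not dividing `m` -/
theorem typ_two (E : WeierstrassCurve ℚ) [E.IsElliptic]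
    (h2 : ∀ v : TT E 2, (∀ σ : GQ, (rhoQ E 2 σ).1 v = v) → v = 0) {m : ℤ} (hm : m < 0)
    (hD : 0 < E.Δ ∨ ∃ q : ℕ, q.Prime ∧ ¬ (q : ℤ) ∣ m ∧ Odd (padicValRat q E.Δ)) {y : QB}
    (hy : y ^ 2 = (m : QB)) : ∃ σ : GQ, σ y ≠ y ∧ ¬ SqSc E 2 σ := by
  have : Fact (Nat.Prime 2) := ⟨Nat.prime_two⟩
  obtain ⟨v, -, hv, -, -⟩ := two_points E 2
  have hnsc : ∀ σ : GQ, (∀ w : TT E 2, w ≠ 0 → (rhoQ E 2 σ).1 w ≠ w) → ¬ SqSc E 2 σ := by
    rintro σ hσ ⟨n, hn⟩
    exact nsc4 (two4 E) (rhoQ E 2 σ) hσ hv n hn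
  obtain ⟨γ, hγ⟩ := exists_three E h2
  by_cases hγy : γ y = y
  · obtain ⟨δ, hδ, hpar⟩ := exists_delta E
    obtain ⟨τ, hτδ, hτy⟩ := exists_even E.isUnit_Δ.ne_zero hδ hm hD hy
    rcases hpar τ hτδ with h | h
    · refine ⟨τ * γ, ?_, hnsc _ fun w hw => ?_⟩
      · rw [AlgEquiv.mul_apply, hγy]
        exact hτy
      · rw [map_mul, alb_mul_apply, h]
        exact hγ w hw
    · exact ⟨τ, hτy, hnsc τ h⟩
  · exact ⟨γ, hγy, hnsc γ hγ⟩

end Pool.Agent.H80.CPP
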