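import Pool.Agent.H80.CPP.Gen
import Pool.Agent.H80.CPP.QRam
import Pool.Agent.H80.CPP.TypA
import Pool.Agent.H80.CPP.TypB
import Pool.Agent.H85.CP.Bri

/-!
# THEOREM CP+: the product of all nonsplit primes
-/

set_option autoImplicit false

namespace Pool.Agent.H80.CPP

open NumberField Pool.Agent.H27.SU Pool.Agent.H85.CP Pool.Agent.H82.HW Pool.Agent.H82.SV
  Pool.Agent.H82.SW Pool.Agent.H82.SX Pool.Agent.H82.MU
open scoped Classical

/-- the product of the primes below `29` -/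
theorem small_prod (S : Finset ℕ) (hS : ∀ p ∈ S, p.Prime ∧ p < 29) : ∏ p ∈ S, p ≤ 3 ^ 18 := by
  have hsub : S ⊆ {2, 3, 5, 7, 11, 13, 17, 19, 23} := by
    intro p hp
    obtain ⟨h1, h2⟩ := hS p hp
    interval_cases p <;> first | (exfalso; revert h1; decide) | decide
  have h1 : ∏ p ∈ S, p ≤ ∏ p ∈ ({2, 3, 5, 7, 11, 13, 17, 19, 23} : Finset ℕ), p := by
    refine Finset.prod_le_prod_of_subset_of_one_le' hsub fun p hp _ => ?_
    revert hp
    simp only [Finset.mem_insert, Finset.mem_singleton]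
    omega
  exact h1.trans (by decide)

/-- the condition on the mod `r` representation: `E[r]` is not dihedral for the field `K` -/
def CondK (E : WeierstrassCurve ℚ) (r : ℕ) (K : IntermediateField ℚ QB) : Prop :=
  (3 ≤ r ∧ Nfed6cde5.HasFullTorsionAction E r) ∨
    (r = 2 ∧ (∀ x : ℚ, 4 * x ^ 3 + E.b₂ * x ^ 2 + 2 * E.b₄ * x + E.b₆ ≠ 0) ∧
      (0 < E.Δ ∨ ∃ q : ℕ, q.Prime ∧ q % 4 = 1 ∧ Odd (padicValRat q E.Δ))) ∨
    ∃ σ : GQ, (∃ x ∈ K, σ x ≠ x) ∧ ¬ SquareScalar E r σ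

/-- some `σ` moves `K` and has no scalar square, or `r = 2` and a prime `q ≡ 1` divides `m` -/
theorem cond_cases (E : WeierstrassCurve ℚ) [E.IsElliptic] (r : ℕ) [Fact r.Prime]
    {K : IntermediateField ℚ QB} (h : CondK E r K) {s : QB} {m : ℤ} (hm0 : m < 0)
    (hs : s ^ 2 = (m : QB)) (hK : ∀ σ : GQ, σ s ≠ s ↔ ∃ x ∈ K, σ x ≠ x) :
    (∃ σ : GQ, σ s ≠ s ∧ ¬ SqSc E r σ) ∨
      ((∃ σ : GQ, ¬ SqSc E r σ) ∧ ∃ q : ℕ, q.Prime ∧ q % 4 = 1 ∧ (q : ℤ) ∣ m ∧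
        (∀ m' : ℤ, m' < 0 → ¬ (q : ℤ) ∣ m' → ∀ s' : QB, s' ^ 2 = (m' : QB) →
          ∃ σ : GQ, σ s' ≠ s' ∧ ¬ SqSc E r σ)) := by
  rcases h with ⟨hr, hf⟩ | ⟨rfl, h2, hD⟩ | ⟨σ, hσ, hsc⟩
  · exact Or.inl (typ_surj E r hr (full_surj E r hf) (exists_moves hm0 hs))
  · rcases hD with hD | ⟨q, hq, hq4, hodd⟩
    · exact Or.inl (typ_two E (no_two E h2) hm0 (Or.inl hD) hs)
    · by_cases hqm : (q : ℤ) ∣ m
      · right
        have h3 : ∀ m' : ℤ, m' < 0 → ¬ (q : ℤ) ∣ m' → ∀ s' : QB, s' ^ 2 = (m' : QB) →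
            ∃ σ : GQ, σ s' ≠ s' ∧ ¬ SqSc E 2 σ := fun m' hm' hd s' hs' =>
          typ_two E (no_two E h2) hm' (Or.inr ⟨q, hq, hd, hodd⟩) hs'
        refine ⟨?_, q, hq, hq4, hqm, h3⟩
        obtain ⟨i, hi⟩ := IsAlgClosed.exists_pow_nat_eq (-1 : QB) (n := 2) two_pos
        obtain ⟨σ, -, hσ⟩ := h3 (-1) (by norm_num) (fun hd => by
          have h4 : (q : ℤ) ∣ 1 := by rwa [dvd_neg] at hd
          have h5 : q ∣ 1 := by exact_mod_cast h4
          exact hq.one_lt.ne' (Nat.dvd_one.1 h5)) i (by rw [hi]; push_cast; rfl)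
        exact ⟨σ, hσ⟩
      · exact Or.inl (typ_two E (no_two E h2) hm0 (Or.inr ⟨q, hq, hqm, hodd⟩) hs)
  · exact Or.inl ⟨σ, (hK σ).2 hσ, fun h => hsc ((sqSc_iff E r σ).1 h)⟩

theorem cond_ex (E : WeierstrassCurve ℚ) [E.IsElliptic] (r : ℕ) [Fact r.Prime]
    {K : IntermediateField ℚ QB} (h : CondK E r K) : ∃ σ : GQ, ¬ SqSc E r σ := by
  rcases h with ⟨hr, hf⟩ | ⟨rfl, h2, hD⟩ | ⟨σ, -, hsc⟩
  · obtain ⟨i, hi⟩ := IsAlgClosed.exists_pow_nat_eq (-1 : QB) (n := 2) two_pos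
    obtain ⟨σ, -, hσ⟩ := typ_surj E r hr (full_surj E r hf)
      (exists_moves (m := -1) (by norm_num) (y := i) (by rw [hi]; push_cast; rfl))
    exact ⟨σ, hσ⟩
  · obtain ⟨i, hi⟩ := IsAlgClosed.exists_pow_nat_eq (-1 : QB) (n := 2) two_pos
    obtain ⟨σ, -, hσ⟩ := typ_two E (no_two E h2) (m := -1) (by norm_num) (by
      rcases hD with hD | ⟨q, hq, hq4, hodd⟩
      · exact Or.inl hD
      · refine Or.inr ⟨q, hq, fun hd => ?_, hodd⟩
        have h4 : (q : ℤ) ∣ 1 := by rwa [dvd_neg] at hd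
        have h5 : q ∣ 1 := by exact_mod_cast h4
        exact hq.one_lt.ne' (Nat.dvd_one.1 h5)) (y := i) (by rw [hi]; push_cast; rfl)
    exact ⟨σ, hσ⟩
  · exact ⟨σ, fun h => hsc ((sqSc_iff E r σ).1 h)⟩

/-- the number of prime factors of `6 r D` -/
theorem omega_le (r D : ℕ) (hr : r.Prime) (hD : D ≠ 0) :
    (6 * r * D).primeFactors.card ≤ D.primeFactors.card + 3 := by
  have h6 : (6 * r * D).primeFactors = (Nat.primeFactors 6 ∪ r.primeFactors) ∪ D.primeFactors := by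
    rw [Nat.primeFactors_mul (mul_ne_zero (by norm_num) hr.ne_zero) hD,
      Nat.primeFactors_mul (by norm_num) hr.ne_zero]
  have h2 : (Nat.primeFactors 6).card ≤ 2 := by
    have h3 : Nat.primeFactors 6 ⊆ {2, 3} := by
      intro q hq
      have h4 := Nat.prime_of_mem_primeFactors hq
      have h5 := Nat.le_of_dvd (by norm_num) (Nat.dvd_of_mem_primeFactors hq)
      have h6 := Nat.dvd_of_mem_primeFactors hq
      interval_cases q <;> revert h4 h6 <;> decide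
    exact (Finset.card_le_card h3).trans (by decide)
  have h7 : r.primeFactors.card = 1 := by
    rw [hr.primeFactors, Finset.card_singleton]
  rw [h6]
  refine (Finset.card_union_le _ _).trans ?_
  have h8 := Finset.card_union_le (Nat.primeFactors 6) r.primeFactors
  omega

theorem cpp_end (r : ℕ) (hr : r.Prime) : ∃ A : ℕ, ∀ (E : WeierstrassCurve ℚ) [E.IsElliptic],
    E.j ≠ 0 → E.j ≠ 1728 → ∃ _ : NumberField (XField E r),
    ∀ (F : IntermediateField ℚ QB) [FiniteDimensional ℚ F] (k : ℕ) (S : Finset ℕ),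
      Module.finrank ℚ F ≤ 2 ^ k →
      (∀ p ∈ S, ∃ K : IntermediateField ℚ QB, K ≤ F ∧ CartanField E p K ∧ CondK E r K) →
      ∏ p ∈ S, p ≤ (discr (XField E r)).natAbs ^
        (A * min k (discr (XField E r)).natAbs.primeFactors.card) := by
  have : Fact r.Prime := ⟨hr⟩
  obtain ⟨A₁, hA₁⟩ := cpp_main r
  refine ⟨18 + 5 * A₁ + (24 * r + 1), ?_⟩
  intro E _ hj0 hj1
  obtain ⟨hf, hLG, -⟩ := LX_galois E r
  rw [XField_eq]
  have hNF : NumberField (LX E r) := ⟨⟩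
  refine ⟨hNF, ?_⟩
  intro F _ k S hF hS
  obtain ⟨D, hDd⟩ : ∃ D, D = (discr (LX E r)).natAbs := ⟨_, rfl⟩
  rw [← hDd]
  have hD0 : D ≠ 0 := by
    rw [hDd]
    exact Int.natAbs_ne_zero.2 (discr_ne_zero _)
  rcases S.eq_empty_or_nonempty with rfl | ⟨p₀, hp₀⟩
  · rw [Finset.prod_empty]
    exact Nat.one_le_pow _ _ (Nat.pos_of_ne_zero hD0)
  have hD3 : 3 ≤ D := by
    obtain ⟨K, -, -, hc⟩ := hS p₀ hp₀
    obtain ⟨σ, hσ⟩ := cond_ex E r hc
    rw [hDd]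
    exact LX_gt' E r hσ
  have hk1 : 1 ≤ k := by
    obtain ⟨K, hKF, hK, -⟩ := hS p₀ hp₀
    by_contra hk0
    have hk : k = 0 := by omega
    rw [hk, pow_zero] at hF
    have h1 := IntermediateField.finrank_bot_mul_relfinrank hKF
    have h2 : Module.finrank ℚ K = 2 := hK.1
    have h3 : 0 < Module.finrank ℚ F := Module.finrank_pos
    rw [h2] at h1
    omega
  have hw1 : 1 ≤ D.primeFactors.card := by
    rw [Nat.one_le_iff_ne_zero, ne_eq, Finset.card_eq_zero, Nat.primeFactors_eq_empty]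
    omega
  obtain ⟨w, hw⟩ : ∃ w, w = min k D.primeFactors.card := ⟨_, rfl⟩
  have hw0 : 1 ≤ w := by
    rw [hw]
    exact le_min hk1 hw1
  rw [← hw]
  -- the data
  have hdat : ∀ p : ℕ, ∃ (s : QB) (m : ℤ) (K : IntermediateField ℚ QB), p ∈ S → (K ≤ F ∧
      CartanField E p K ∧ CondK E r K) ∧ s ∈ K ∧ Squarefree m ∧ s ^ 2 = (m : QB) ∧
      NonsplitWith E p s ∧ ∀ σ : GQ, σ s ≠ s ↔ ∃ x ∈ K, σ x ≠ x := by
    intro p
    by_cases hp : p ∈ S
    · obtain ⟨K, hKF, hK, hc⟩ := hS p hp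
      obtain ⟨s, m, h1, h2, h3, h4, h5⟩ := cart_gen E hK
      exact ⟨s, m, K, fun _ => ⟨⟨hKF, hK, hc⟩, h1, h2, h3, h4, h5⟩⟩
    · exact ⟨0, 0, ⊥, fun h => absurd h hp⟩
  choose s m K hdat using hdat
  have hSp : ∀ p ∈ S, p.Prime := by
    intro p hp
    obtain ⟨h, -⟩ := (hdat p hp).2.2.2.2.1
    exact h.out
  obtain ⟨T, hT⟩ : ∃ T, T = S.filter fun p => 29 ≤ p := ⟨_, rfl⟩
  have hTS : ∀ p ∈ T, p ∈ S ∧ 29 ≤ p := by
    intro p hp
    rw [hT, Finset.mem_filter] at hp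
    exact hp
  obtain ⟨T₁, hT₁⟩ : ∃ T₁, T₁ = T.filter fun p => ∃ σ : GQ, σ (s p) ≠ s p ∧ ¬ SqSc E r σ := ⟨_, rfl⟩
  obtain ⟨T₂, hT₂⟩ : ∃ T₂, T₂ = T.filter fun p => ¬ ∃ σ : GQ, σ (s p) ≠ s p ∧ ¬ SqSc E r σ :=
    ⟨_, rfl⟩
  have hmono : ∀ a b : ℕ, a ≤ b → D ^ a ≤ D ^ b := fun a b h =>
    Nat.pow_le_pow_right (by omega) h
  -- small primes
  have hP0 : ∏ p ∈ S with ¬ 29 ≤ p, p ≤ D ^ 18 := by
    refine (small_prod _ fun p hp => ?_).trans (Nat.pow_le_pow_left hD3 18)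
    obtain ⟨h1, h2⟩ := Finset.mem_filter.1 hp
    exact ⟨hSp p h1, not_le.1 h2⟩
  -- the primes outside the dihedral fields
  have hP1 : ∏ p ∈ T₁, p ≤ D ^ (A₁ * (5 * w)) := by
    have hfin : Module.finrank ℚ (IntermediateField.adjoin ℚ (s '' (T₁ : Set ℕ))) ≤
        2 ^ (min k ((6 * r * D).primeFactors.card + 1)) := by
      rcases min_choice k ((6 * r * D).primeFactors.card + 1) with h | h
      · rw [h]
        refine le_trans ?_ hF
        have hle : IntermediateField.adjoin ℚ (s '' (T₁ : Set ℕ)) ≤ F := by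
          rw [IntermediateField.adjoin_le_iff]
          rintro _ ⟨p, hp, rfl⟩
          have hp' : p ∈ S := by
            rw [hT₁] at hp
            exact (hTS p (Finset.mem_filter.1 hp).1).1
          exact (hdat p hp').1.1 (hdat p hp').2.1
        have h1 := IntermediateField.finrank_bot_mul_relfinrank hle
        have h3 : 0 < Module.finrank ℚ F := Module.finrank_pos
        have h4 : IntermediateField.relfinrank
            (IntermediateField.adjoin ℚ (s '' (T₁ : Set ℕ))) F ≠ 0 := by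
          intro h0
          rw [h0, mul_zero] at h1
          omega
        rw [← h1]
        exact Nat.le_mul_of_pos_right _ (Nat.pos_of_ne_zero h4)
      · rw [h]
        refine finrank_cart s T₁ (mul_ne_zero (mul_ne_zero (by norm_num) hr.ne_zero) hD0)
          fun p hp => ?_
        rw [hT₁] at hp
        obtain ⟨hpS, hp29⟩ := hTS p (Finset.mem_filter.1 hp).1
        obtain ⟨-, -, h2, h3, h4, -⟩ := hdat p hpS
        refine ⟨m p, h2.ne_zero, h3, fun q hq hd => ?_⟩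
        rw [hDd]
        exact m_dvd E hj0 hj1 r hp29 h4 h2 h3 hq hd
    have h1 := hA₁ E hj0 hj1 T₁ s _ (fun p hp => by
      rw [hT₁] at hp
      obtain ⟨hpT, hσ⟩ := Finset.mem_filter.1 hp
      obtain ⟨hpS, hp29⟩ := hTS p hpT
      exact ⟨hp29, (hdat p hpS).2.2.2.2.1, hσ⟩) hfin
    rw [← hDd] at h1
    refine h1.trans (hmono _ _ (Nat.mul_le_mul_left _ ?_))
    have h2 := omega_le r D hr hD0
    rw [hw]
    omega
  -- the primes with a dihedral Cartan field ramified at `q`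
  have hP2 : ∏ p ∈ T₂, p ≤ D ^ (24 * r + 1) := by
    rcases T₂.eq_empty_or_nonempty with h0 | ⟨p₁, hp₁⟩
    · rw [h0, Finset.prod_empty]
      exact Nat.one_le_pow _ _ (by omega)
    have hp₁' := hp₁
    rw [hT₂, Finset.mem_filter] at hp₁'
    obtain ⟨hp₁T, hp₁n⟩ := hp₁'
    obtain ⟨hp₁S, hp₁29⟩ := hTS p₁ hp₁T
    obtain ⟨⟨-, -, hc⟩, -, hsf, hsm, hnw, hK⟩ := hdat p₁ hp₁S
    obtain ⟨hm0, -, -⟩ := m_data E hj0 hj1 hp₁29 hnw hsf hsm
    obtain ⟨-, q, hq, hq4, hqm, hall⟩ := (cond_cases E r hc hm0 hsm hK).resolve_left hp₁n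
    have hfq : Fact q.Prime := ⟨hq⟩
    have hq5 : 5 ≤ q := by
      have h2 := hq.two_le
      omega
    obtain ⟨-, -, hval⟩ := m_data E hj0 hj1 hp₁29 hnw hsf hsm
    obtain ⟨-, hodd, hj⟩ := hval q hq hq5 hqm
    have h1 := t3_prod E hj1 q hq4 hj hodd T₂ s m (fun p hp => by
      rw [hT₂, Finset.mem_filter] at hp
      obtain ⟨hpT, hpn⟩ := hp
      obtain ⟨hpS, hp29⟩ := hTS p hpT
      obtain ⟨-, -, hsf', hsm', hnw', -⟩ := hdat p hpS
      obtain ⟨hm0', hpm, -⟩ := m_data E hj0 hj1 hp29 hnw' hsf' hsm'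
      have hqm' : (q : ℤ) ∣ m p := by
        by_contra hd
        exact hpn (hall (m p) hm0' hd (s p) hsm')
      refine ⟨by omega, ?_, hnw', hsf', hsm', hqm'⟩
      rintro rfl
      exact hpm hqm')
    have h2 : q ≤ 6 * r * D := by
      refine Nat.le_of_dvd (Nat.pos_of_ne_zero
        (mul_ne_zero (mul_ne_zero (by norm_num) hr.ne_zero) hD0)) ?_
      rw [hDd]
      exact m_dvd E hj0 hj1 r hp₁29 hnw hsf hsm hq hqm
    have hc' : 24 * r ≤ D ^ (24 * r) := (Nat.lt_pow_self (by omega : 1 < D)).le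
    calc ∏ p ∈ T₂, p ≤ 4 * q := h1
      _ ≤ 4 * (6 * r * D) := Nat.mul_le_mul_left _ h2
      _ = (24 * r) * D := by ring
      _ ≤ D ^ (24 * r) * D := Nat.mul_le_mul_right _ hc'
      _ = D ^ (24 * r + 1) := (pow_succ _ _).symm
  have hsplit : ∏ p ∈ S, p = (∏ p ∈ T₁, p) * (∏ p ∈ T₂, p) * ∏ p ∈ S with ¬ 29 ≤ p, p := by
    rw [hT₁, hT₂, Finset.prod_filter_mul_prod_filter_not, hT,
      Finset.prod_filter_mul_prod_filter_not]
  rw [hsplit]
  calc (∏ p ∈ T₁, p) * (∏ p ∈ T₂, p) * ∏ p ∈ S with ¬ 29 ≤ p, p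
      ≤ D ^ (A₁ * (5 * w)) * D ^ (24 * r + 1) * D ^ 18 :=
        Nat.mul_le_mul (Nat.mul_le_mul hP1 hP2) hP0
    _ = D ^ (A₁ * (5 * w) + (24 * r + 1) + 18) := by rw [← pow_add, ← pow_add]
    _ ≤ D ^ ((18 + 5 * A₁ + (24 * r + 1)) * w) := by
        refine hmono _ _ ?_
        nlinarith

end Pool.Agent.H80.CPP
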