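import Pool.Agent.H80.CPP.Scal
import Pool.Agent.H80.CPP.Def

/-!
# Nonsplit primes: Frobenius elements outside several Cartan fields
-/

set_option autoImplicit false

namespace Pool.Agent.H80.CPP

open WeierstrassCurve Polynomial Pool.Agent.H27.SU Pool.Agent.H82.HW Pool.Agent.H82.SV
  Pool.Agent.H82.SW Pool.Agent.H82.SX Pool.Agent.H82.MU Pool.Agent.H80.CP
open scoped Classical

/-- no map is linear and semilinear -/
theorem not_lin_semi {V k : Type} [AddCommGroup V] [Field k] [Fintype k] {p : ℕ} [Fact p.Prime]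
    (e : V ≃+ k) (hk : Fintype.card k = p ^ 2) {g : Au V} (h1 : IsLin e g) (h2 : IsSemi e p g) :
    False := by
  have hp : p.Prime := Fact.out
  obtain ⟨c, hc⟩ := h1
  obtain ⟨d, hd⟩ := h2
  have h3 : ∀ x : k, c * x = d * x ^ p := by
    intro x
    have e1 := hc (e.symm x)
    have e2 := hd (e.symm x)
    rw [AddEquiv.apply_symm_apply] at e1 e2
    rw [← e1, e2]
  have hcd : c = d := by
    have := h3 1
    rwa [one_pow, mul_one, mul_one] at this
  have hc0 : c ≠ 0 := by
    intro h0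
    have h4 := alb_ne e g
    rw [hc, h0, zero_mul] at h4
    exact h4 rfl
  have h5 : ∀ x : k, (X ^ p - X : k[X]).eval x = 0 := by
    intro x
    have h6 := h3 x
    rw [← hcd] at h6
    have h7 := mul_left_cancel₀ hc0 h6
    rw [eval_sub, eval_pow, eval_X, ← h7, sub_self]
  have hne : (X ^ p - X : k[X]) ≠ 0 := FiniteField.X_pow_card_sub_X_ne_zero k hp.one_lt
  have h8 : (Finset.univ : Finset k).card ≤ (X ^ p - X : k[X]).natDegree := by
    refine Polynomial.card_le_degree_of_subset_roots (fun x _ => ?_)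
    rw [Polynomial.mem_roots hne]
    exact h5 x
  rw [FiniteField.X_pow_card_sub_X_natDegree_eq k hp.one_lt, Finset.card_univ, hk] at h8
  nlinarith [hp.one_lt]

/-- the data of a nonsplit prime with its Cartan field -/
theorem nonsplitWith_data (E : WeierstrassCurve ℚ) [E.IsElliptic] {p : ℕ} [Fact p.Prime] {y : QB}
    (hE : NonsplitWith E p y) :
    ∃ (k : Type) (_ : Field k) (_ : Fintype k) (e : TT E p ≃+ k) (m : ℤ) (s : QB),
      Fintype.card k = p ^ 2 ∧ (∀ σ, IsLin e (rhoQ E p σ) ∨ IsSemi e p (rhoQ E p σ)) ∧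
      Squarefree m ∧ s ^ 2 = (m : QB) ∧ (∀ σ : GQ, IsLin e (rhoQ E p σ) ↔ σ s = s) ∧
      ∀ σ : GQ, σ y = y ↔ σ s = s := by
  obtain ⟨_, e, he⟩ := hE
  have hfin : Fintype (GaloisField p 2) := Fintype.ofFinite _
  have hk : Fintype.card (GaloisField p 2) = p ^ 2 := by
    have := GaloisField.card p 2 (by norm_num)
    rw [Nat.card_eq_fintype_card] at this
    exact this
  have h1 : ∀ σ : GQ, σ y = y → IsLin e (rhoQ E p σ) := by
    intro σ hσ
    obtain ⟨c, hc⟩ := (he σ).1 hσ
    exact ⟨c, fun v => hc v ((rhoQ E p σ).1 v) (rhoQ_coe E p σ v).symm⟩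
  have h2 : ∀ σ : GQ, σ y ≠ y → IsSemi e p (rhoQ E p σ) := by
    intro σ hσ
    obtain ⟨c, hc⟩ := (he σ).2 hσ
    exact ⟨c, fun v => hc v ((rhoQ E p σ).1 v) (rhoQ_coe E p σ v).symm⟩
  have hN : ∀ σ, IsLin e (rhoQ E p σ) ∨ IsSemi e p (rhoQ E p σ) := by
    intro σ
    by_cases hσ : σ y = y
    · exact Or.inl (h1 σ hσ)
    · exact Or.inr (h2 σ hσ)
  obtain ⟨m, s, hmsq, hs, hms⟩ := qf_exists E e hk hN
  refine ⟨GaloisField p 2, inferInstance, hfin, e, m, s, hk, hN, hmsq, hs, hms, fun σ => ?_⟩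
  rw [← hms σ]
  constructor
  · exact h1 σ
  · intro h
    by_contra hσ
    exact not_lin_semi e hk h (h2 σ hσ)

/-- `TT E n` is killed by `n` -/
theorem tt_smul (E : WeierstrassCurve ℚ) (n : ℕ) (v : TT E n) : n • v = 0 := by
  apply Subtype.ext
  have h1 : ((n : ℕ) : ℤ) • v.1 = 0 := v.2
  rw [natCast_zsmul] at h1
  exact h1

theorem cp_local_set (E : WeierstrassCurve ℚ) [E.IsElliptic] (hj0 : E.j ≠ 0) (hj1 : E.j ≠ 1728)
    (S : Finset ℕ) (y : ℕ → QB) (hS : ∀ p ∈ S, 29 ≤ p ∧ NonsplitWith E p (y p))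
    (r l : ℕ) [Fact r.Prime] [Fact l.Prime] (hl5 : 5 ≤ l) (hlr : l ≠ r) (hlS : l ∉ S)
    (i : QB →ₐ[ℚ] PadicAlgCl l) (res : GG l →* GQ)
    (hres : ∀ (f : GG l) (x : QB), i (res f x) = f (i x))
    (Y : Finset (PadicAlgCl l)) (hY : ∀ z ∈ Y, ‖z‖ ≤ 1) :
    ∃ f : GG l, (∀ z ∈ Y, ‖f z - z ^ l‖ < 1) ∧
      (2 * l < ∏ p ∈ S with res f (y p) ≠ y p, p → ∃ n : ℤ, ∀ v : TT E r,
        ((rhoQ E r (res f)).1 ((rhoQ E r (res f)).1 v) : TT E r) = n • v) := by
  have hl : l.Prime := Fact.out
  have hr : r.Prime := Fact.out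
  have hSp : ∀ p ∈ S, p.Prime := by
    intro p hp
    obtain ⟨h, -⟩ := (hS p hp).2
    exact h.out
  have hl12 : ¬ l ∣ 12 := by
    intro h
    have h1 : l ≤ 12 := Nat.le_of_dvd (by norm_num) h
    interval_cases l <;> revert h hl <;> decide
  obtain ⟨pi, hpi⟩ := IsAlgClosed.exists_pow_nat_eq (l : PadicAlgCl l) (by norm_num : 0 < 12)
  by_cases hj : 0 ≤ padicValRat l E.j
  swap
  · -- potentially multiplicative reduction at `l`
    rw [not_le] at hj
    obtain ⟨φ, -, -, hφY⟩ := exists_frob 12 (by norm_num) hl12 pi hpi Y hY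
    refine ⟨φ, hφY, fun hbig => ?_⟩
    exfalso
    have hdvd : (∏ p ∈ S with res φ (y p) ≠ y p, p) ∣ l + 1 := by
      refine Finset.prod_primes_dvd _ (fun p hp => ?_) (fun p hp => ?_)
      · exact (hSp p (Finset.mem_filter.1 hp).1).prime
      · obtain ⟨hpS, hmove⟩ := Finset.mem_filter.1 hp
        have hpp := hSp p hpS
        have hfp : Fact p.Prime := ⟨hpp⟩
        have hlp : l ≠ p := fun h => hlS (h ▸ hpS)
        obtain ⟨k, i1, i2, e, m, s, hk, hN, hmsq, hs, hms, hys⟩ := nonsplitWith_data E (hS p hpS).2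
        obtain ⟨-, -, h3⟩ := qm_q E hj0 hj1 hj (by have := (hS p hpS).1; omega) hlp e hk hN hmsq hs hms
        have hlm : ¬ (l : ℤ) ∣ m := by
          intro h
          have h1 : (m : ZMod l) = 0 := (ZMod.intCast_zmod_eq_zero_iff_dvd m l).2 h
          have h2 : legendreSym l m = 0 := (legendreSym.eq_zero_iff l m).2 h1
          rw [h2, sub_zero] at h3
          have h4 : p ∣ l := by exact_mod_cast h3
          exact hlp ((Nat.prime_dvd_prime_iff_eq hpp hl).1 h4).symm
        have hsmove : res φ s ≠ s := fun h => hmove ((hys (res φ)).2 h)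
        have ht : (i s) ^ 2 = (m : PadicAlgCl l) := by rw [← map_pow, hs, map_intCast]
        have hleg : legendreSym l m = -1 := by
          refine m_nonres (by omega) hlm ht φ fun h => hsmove ?_
          apply i.toRingHom.injective
          show i (res φ s) = i s
          rw [hres, h]
        rw [hleg] at h3
        have h4 : (p : ℤ) ∣ ((l + 1 : ℕ) : ℤ) := by
          have e1 : ((l + 1 : ℕ) : ℤ) = (l : ℤ) - -1 := by push_cast; ring
          rw [e1]
          exact h3
        exact_mod_cast h4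
    have h1 := Nat.le_of_dvd (by omega) hdvd
    omega
  · -- potentially good reduction
    obtain ⟨N, hNd⟩ : ∃ N, N = r * ∏ p ∈ S, p := ⟨_, rfl⟩
    have hN0 : N ≠ 0 := by
      rw [hNd]
      exact mul_ne_zero hr.ne_zero (Finset.prod_ne_zero_iff.2 fun p hp => (hSp p hp).ne_zero)
    have hNe : NeZero N := ⟨hN0⟩
    have hlN : ¬ l ∣ N := by
      rw [hNd, hl.dvd_mul]
      rintro (h | h)
      · exact hlr ((Nat.prime_dvd_prime_iff_eq hl hr).1 h)
      · obtain ⟨p, hp, hd⟩ := (Prime.dvd_finsetProd_iff hl.prime _).1 h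
        have h1 := (Nat.prime_dvd_prime_iff_eq hl (hSp p hp)).1 hd
        exact hlS (h1 ▸ hp)
    have hNT : ∀ v : TT E N, N • v = 0 := tt_smul E N
    have hdr : r ∣ N := ⟨_, hNd⟩
    have hdp : ∀ p ∈ S, p ∣ N := by
      intro p hp
      rw [hNd]
      exact Dvd.dvd.mul_left (Finset.dvd_prod_of_mem (fun p => p) hp) _
    let _ : Fintype (TT E N) := Fintype.ofFinite _
    obtain ⟨M, u, hMd, -, hMj⟩ := exists_GM E N hl5 hj i res hres pi hpi
    obtain ⟨Z, hZd⟩ : ∃ Z : Finset (PadicAlgCl l), Z = Y ∪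
      ((Finset.univ.image (fun v : TT E N => cx (M.j v)) ∪
        Finset.univ.image (fun v : TT E N => cy (M.j v))) ∪ {M.W.a₄, M.W.a₆}) := ⟨_, rfl⟩
    have hYZ : ∀ z ∈ Y, z ∈ Z := by
      intro z hz
      rw [hZd]
      exact Finset.mem_union_left _ hz
    have hYx : ∀ v, cx (M.j v) ∈ Z := by
      intro v
      rw [hZd]
      exact Finset.mem_union_right _ (Finset.mem_union_left _ (Finset.mem_union_left _
        (Finset.mem_image_of_mem (fun v : TT E N => cx (M.j v)) (Finset.mem_univ v))))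
    have hYy : ∀ v, cy (M.j v) ∈ Z := by
      intro v
      rw [hZd]
      exact Finset.mem_union_right _ (Finset.mem_union_left _ (Finset.mem_union_right _
        (Finset.mem_image_of_mem (fun v : TT E N => cy (M.j v)) (Finset.mem_univ v))))
    have hY4 : M.W.a₄ ∈ Z := by
      rw [hZd]
      exact Finset.mem_union_right _ (Finset.mem_union_right _ (by simp))
    have hY6 : M.W.a₆ ∈ Z := by
      rw [hZd]
      exact Finset.mem_union_right _ (Finset.mem_union_right _ (by simp))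
    have hint' := fun v => gm_int hl5 M hlN hNT v
    have hZ : ∀ x ∈ Z, ‖x‖ ≤ 1 := by
      intro x hx
      rw [hZd] at hx
      simp only [Finset.mem_union, Finset.mem_image, Finset.mem_univ, true_and,
        Finset.mem_insert, Finset.mem_singleton] at hx
      rcases hx with hx | ((⟨v, rfl⟩ | ⟨v, rfl⟩) | rfl | rfl)
      · exact hY x hx
      · exact (hint' v).1
      · exact (hint' v).2
      · exact M.good.h4
      · exact M.good.h6
    obtain ⟨φ, hφpi, -, hφY⟩ := exists_frob 12 (by norm_num) hl12 pi hpi Z hZ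
    refine ⟨φ, fun z hz => hφY z (hYZ z hz), fun hbig => ?_⟩
    obtain ⟨red, hrinj, hred⟩ := exists_red hl5 M hlN hNT
    have hφd : φ M.d = M.d := by rw [hMd, map_zpow₀, hφpi]
    obtain ⟨F, hFinj, hF, hkey⟩ := frob_red hl5 M hlN hNT red hrinj hred φ hφd
      (fun v => hφY _ (hYx v)) (fun v => hφY _ (hYy v)) (hφY _ hY4) (hφY _ hY6)
    have hell : (Wbar M.W).IsElliptic := Wbar_elliptic hl5 M.good
    have hkey2 : ∀ v : TT E N, F (F (red v)) =
        red ((rhoQ E N (res φ)).1 ((rhoQ E N (res φ)).1 v)) := by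
      intro v
      have h1 := hkey v
      have h2 := hkey ((rhoQ E N (res φ)).1 v)
      have h1' : red ((rhoQ E N (res φ)).1 v) = F (red v) := h1
      have h2' : red ((rhoQ E N (res φ)).1 ((rhoQ E N (res φ)).1 v)) =
        F (red ((rhoQ E N (res φ)).1 v)) := h2
      rw [h2', h1']
    obtain ⟨n, hn⟩ := sq_all_set l hl5 (Wbar M.W) F hFinj hF
      (S.filter fun p => res φ (y p) ≠ y p) (fun p hp => hSp p (Finset.mem_filter.1 hp).1) hbig
      (fun p hp => by
        obtain ⟨hpS, hmove⟩ := Finset.mem_filter.1 hp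
        have hpp := hSp p hpS
        have hfp : Fact p.Prime := ⟨hpp⟩
        obtain ⟨k, i1, i2, e, m, s, hk, hNs, hmsq, hs, hms, hys⟩ :=
          nonsplitWith_data E (hS p hpS).2
        have hsemi : IsSemi e p (rhoQ E p (res φ)) :=
          (hNs (res φ)).resolve_left fun h => hmove ((hys (res φ)).2 ((hms (res φ)).1 h))
        obtain ⟨c, hc⟩ := semi_sq hk hsemi
        let _ : Fintype (TT E p) := Fintype.ofEquiv k e.symm.toEquiv
        have hV : Fintype.card (TT E p) = p ^ 2 := by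
          rw [← hk]
          exact Fintype.card_congr e.toEquiv
        refine ⟨TT E p, inferInstance, inferInstance, red.comp (incl E (hdp p hpS)), c, hV,
          tt_smul E p, hrinj.comp (incl_inj E (hdp p hpS)), fun v => ?_⟩
        show F (F (red (incl E (hdp p hpS) v))) = c • red (incl E (hdp p hpS) v)
        rw [hkey2, ← incl_rho, ← incl_rho]
        have h3 : (rhoQ E p (res φ)).1 ((rhoQ E p (res φ)).1 v) = c • v := by
          rw [← hc v, alb_mul_apply]
        rw [h3, map_nsmul, map_nsmul])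
    refine ⟨n, fun v => ?_⟩
    apply incl_inj E hdr
    apply hrinj
    rw [incl_rho, incl_rho, ← hkey2, hn, map_zsmul, map_zsmul]

end Pool.Agent.H80.CPP
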