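import Pool.Agent.H85.CP.Fin
import Pool.Agent.H80.CPP.Loc
import Pool.Agent.H80.CPP.Comb

/-!
# THEOREM CP+: products of nonsplit primes
-/

set_option autoImplicit false

namespace Pool.Agent.H80.CPP

open NumberField Pool.Agent.H27.SU Pool.Agent.H85.CP Pool.Agent.H82.HW Pool.Agent.H82.SV
  Pool.Agent.H82.SW Pool.Agent.H82.SX Pool.Agent.H82.MU

theorem LX_gt' (E : WeierstrassCurve ℚ) [E.IsElliptic] (r : ℕ) [Fact r.Prime] {σ : GQ}
    (hσ : ¬ SqSc E r σ) [NumberField (LX E r)] : 3 ≤ (discr (LX E r)).natAbs := by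
  have h1 : 1 < Module.finrank ℚ (LX E r) := by
    by_contra hcon
    have hpos : 0 < Module.finrank ℚ (LX E r) := Module.finrank_pos
    have h1 : Module.finrank ℚ (LX E r) = 1 := by omega
    have hbot : LX E r = ⊥ := IntermediateField.finrank_eq_one_iff.1 h1
    apply hσ
    refine SqSc_of_pow E r (φ := 1) ⟨1, fun v => ?_⟩ 1 (fun x hx => ?_)
    · rw [map_one, one_smul]
      rfl
    · rw [hbot] at hx
      obtain ⟨a, rfl⟩ := IntermediateField.mem_bot.1 hx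
      rw [AlgEquiv.commutes, AlgEquiv.commutes]
  have h2 := abs_discr_gt_two h1
  have h3 : (2 : ℤ) < ((discr (LX E r)).natAbs : ℤ) := by
    rw [Int.natCast_natAbs]
    exact h2
  omega

/-- the primes ramified in the Cartan field -/
theorem m_primes (E : WeierstrassCurve ℚ) [E.IsElliptic] (hj0 : E.j ≠ 0) (hj1 : E.j ≠ 1728)
    {p : ℕ} [Fact p.Prime] (hp : 29 ≤ p) {k : Type} [Field k] [Fintype k] (e : TT E p ≃+ k)
    (hk : Fintype.card k = p ^ 2)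
    (hN : ∀ σ, IsLin e (rhoQ E p σ) ∨ IsSemi e p (rhoQ E p σ)) {m : ℤ} {s : QB}
    (hmsq : Squarefree m) (hs : s ^ 2 = (m : QB))
    (hms : ∀ σ : GQ, IsLin e (rhoQ E p σ) ↔ σ s = s) :
    m < 0 ∧ ∀ q : ℕ, q.Prime → 5 ≤ q → (q : ℤ) ∣ m → 0 < padicValRat q (E.j - 1728) ∧
      Odd (padicValRat q (E.j - 1728)) := by
  have hpp : p.Prime := Fact.out
  have h5p : 5 ≤ p := by omega
  have hjp : 0 ≤ padicValRat p E.j := qm_p E hj0 hj1 h5p e hk hN
  have hm := qf_p E hp hjp e hk hN hmsq hs hms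
  have hpm : ¬ (p : ℤ) ∣ m := by
    intro h
    have h1 : (m : ZMod p) = 0 := (ZMod.intCast_zmod_eq_zero_iff_dvd m p).2 h
    have h2 : legendreSym p m = 0 := (legendreSym.eq_zero_iff p m).2 h1
    rw [h2] at hm
    norm_num at hm
  have hint : ∀ (q : ℕ) [Fact q.Prime], (q : ℤ) ∣ m → 0 ≤ padicValRat q E.j := by
    intro q hq hd
    by_contra hcon
    rw [not_le] at hcon
    have hqp : q ≠ p := by
      rintro rfl
      exact absurd hcon (not_lt.2 hjp)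
    obtain ⟨-, -, h3⟩ := qm_q E hj0 hj1 hcon h5p hqp e hk hN hmsq hs hms
    have h1 : (m : ZMod q) = 0 := (ZMod.intCast_zmod_eq_zero_iff_dvd m q).2 hd
    have h2 : legendreSym q m = 0 := (legendreSym.eq_zero_iff q m).2 h1
    rw [h2, sub_zero] at h3
    have h4 : p ∣ q := by exact_mod_cast h3
    exact hqp ((Nat.prime_dvd_prime_iff_eq hpp hq.out).1 h4).symm
  have hnonneg : ∀ (q : ℕ) [Fact q.Prime], 0 ≤ padicValRat q E.j →
      0 ≤ padicValRat q (E.j - 1728) := by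
    intro q hq hv
    have h1 : min (padicValRat q E.j) (padicValRat q (-1728 : ℚ)) ≤
        padicValRat q (E.j + -1728) :=
      padicValRat.min_le_padicValRat_add (by rw [← sub_eq_add_neg]; exact sub_ne_zero.2 hj1)
    rw [← sub_eq_add_neg] at h1
    have h2 : 0 ≤ padicValRat q (-1728 : ℚ) := by
      rw [padicValRat.neg]
      have h3 : padicValRat q (1728 : ℚ) = (padicValNat q 1728 : ℤ) := by
        have := padicValRat.of_nat (p := q) (n := 1728)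
        exact_mod_cast this
      rw [h3]
      positivity
    exact (le_min hv h2).trans h1
  refine ⟨qf_neg E h5p e hk hmsq hs hms, ?_⟩
  intro q hq h5 hd
  have : Fact q.Prime := ⟨hq⟩
  have hqp : q ≠ p := by
    rintro rfl
    exact hpm hd
  have hi := hint q hd
  have hodd := qf_odd E hj1 h5p h5 hqp hi e hk hN hmsq hs hms hd
  refine ⟨lt_of_le_of_ne (hnonneg q hi) ?_, hodd⟩
  intro h0
  rw [← h0] at hodd
  exact absurd hodd (by decide)

/-- a Frobenius element in the class of `σ` with a property `R` known for suitable Frobenius maps -/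
theorem key_R (E : WeierstrassCurve ℚ) [E.IsElliptic] (r : ℕ) [Fact r.Prime]
    {m : ℤ} {y : QB} (hy : y ^ 2 = (m : QB))
    {σ : GQ} (hσy : σ y ≠ y) (hσ : ¬ SqSc E r σ) [NumberField (MX E r y)]
    [IsGalois ℚ (MX E r y)] (s : Gal((MX E r y)/ℚ))
    (hs : ∀ x : MX E r y, ((s x : MX E r y) : QB) = σ (x : QB)) {ℓ : ℕ} [Fact ℓ.Prime]
    (hℓd : ¬ (ℓ : ℤ) ∣ discr (MX E r y)) {P : Ideal (𝓞 (MX E r y))}
    (hP : P ∈ Pr (MX E r y) ℓ) {t : Gal((MX E r y)/ℚ)} (ht : IsFr ℓ P t)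
    (hts : Subgroup.zpowers t = Subgroup.zpowers s) (R : GQ → Prop)
    (hR : ∀ (ι : QB →ₐ[ℚ] PadicAlgCl ℓ) (res : GG ℓ →* GQ), (∀ φ x, ι (res φ x) = φ (ι x)) →
        ∀ Y : Finset (PadicAlgCl ℓ), (∀ z ∈ Y, ‖z‖ ≤ 1) →
          ∃ φ : GG ℓ, (∀ z ∈ Y, ‖φ z - z ^ ℓ‖ < 1) ∧ R (res φ)) :
    ∃ τ : GQ, R τ ∧ τ y ≠ y ∧ ¬ SqSc E r τ := by
  obtain ⟨ι, res, hres⟩ := exists_restr ℓ
  obtain ⟨Y, hY1, hY⟩ := frob_match (MX E r y) hℓd ι
  obtain ⟨φ, hφY, hφ⟩ := hR ι res hres Y hY1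
  obtain ⟨g, hg⟩ := hY φ (res φ) (hres φ) hφY P hP t ht
  obtain ⟨g', hg'⟩ : ∃ g' : GQ, ∀ x : MX E r y, ((g x : MX E r y) : QB) = g' (x : QB) := by
    have hAlg : Algebra.IsAlgebraic ℚ QB := AlgebraicClosure.isAlgebraic ℚ
    have hClo : IsAlgClosure ℚ QB := ⟨inferInstance, hAlg⟩
    have hNor : Normal ℚ QB := IsAlgClosure.normal ℚ QB
    obtain ⟨g', hg'⟩ := AlgEquiv.restrictNormalHom_surjective (F := ℚ) (K₁ := MX E r y) (E := QB) g
    refine ⟨g', fun x => ?_⟩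
    rw [← hg']
    exact AlgEquiv.restrictNormal_commutes g' (MX E r y) x
  have hginv : ∀ x : MX E r y, (((g⁻¹ : Gal((MX E r y)/ℚ)) x : MX E r y) : QB) =
      (g'⁻¹ : GQ) (x : QB) := by
    intro x
    have h1 := hg' ((g⁻¹ : Gal((MX E r y)/ℚ)) x)
    have h2 : g ((g⁻¹ : Gal((MX E r y)/ℚ)) x) = x := by
      rw [← AlgEquiv.mul_apply, mul_inv_cancel, AlgEquiv.one_apply]
    rw [h2] at h1
    rw [h1, ← AlgEquiv.mul_apply, inv_mul_cancel, AlgEquiv.one_apply]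
  have hτ : ∀ x : MX E r y, (g'⁻¹ * res φ * g') (x : QB) = ((t x : MX E r y) : QB) := by
    intro x
    rw [AlgEquiv.mul_apply, AlgEquiv.mul_apply, ← hg', hg, ← hginv]
    congr 1
    rw [← AlgEquiv.mul_apply, ← AlgEquiv.mul_apply]
    congr 1
    group
  have hτn : ∀ (n : ℕ) (x : MX E r y), ((g'⁻¹ * res φ * g') ^ n) (x : QB) =
      (((t ^ n) x : MX E r y) : QB) := by
    intro n
    induction n with
    | zero => intro x; rfl
    | succ n ih =>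
      intro x
      rw [pow_succ, AlgEquiv.mul_apply, hτ, ih, ← AlgEquiv.mul_apply, ← pow_succ]
  obtain ⟨k, hk⟩ : ∃ k : ℕ, t ^ k = s := by
    have h1 : s ∈ Subgroup.zpowers t := by
      rw [hts]
      exact Subgroup.mem_zpowers s
    rw [← mem_powers_iff_mem_zpowers] at h1
    exact h1
  have hσk : ∀ x : MX E r y, σ (x : QB) = ((g'⁻¹ * res φ * g') ^ k) (x : QB) := by
    intro x
    rw [hτn, hk, hs]
  have hyM : y ∈ MX E r y :=
    (le_sup_right : IntermediateField.adjoin ℚ {y} ≤ MX E r y)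
      (IntermediateField.mem_adjoin_simple_self ℚ y)
  have hτy : res φ y ≠ y := by
    intro hfix
    have h1 : (g'⁻¹ * res φ * g') y = y := by
      have h2 : (g' y) ^ 2 = y ^ 2 := by rw [← map_pow, hy, map_intCast]
      rcases sq_eq_sq_iff_eq_or_eq_neg.1 h2 with h3 | h3
      · have h4 : (g'⁻¹ : GQ) y = y := by
          conv_lhs => rw [← h3]
          rw [← AlgEquiv.mul_apply, inv_mul_cancel, AlgEquiv.one_apply]
        rw [AlgEquiv.mul_apply, AlgEquiv.mul_apply, h3, hfix, h4]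
      · have h4 : (g'⁻¹ : GQ) y = -y := by
          have h5 : (g'⁻¹ : GQ) (g' y) = y := by
            rw [← AlgEquiv.mul_apply, inv_mul_cancel, AlgEquiv.one_apply]
          rw [h3, map_neg] at h5
          rw [← neg_eq_iff_eq_neg]
          exact h5
        rw [AlgEquiv.mul_apply, AlgEquiv.mul_apply, h3, map_neg, map_neg, hfix, h4, neg_neg]
    have h2 : ∀ n : ℕ, ((g'⁻¹ * res φ * g') ^ n) y = y := by
      intro n
      induction n with
      | zero => rfl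
      | succ n ih => rw [pow_succ, AlgEquiv.mul_apply, h1, ih]
    exact hσy ((hσk ⟨y, hyM⟩).trans (h2 k))
  refine ⟨res φ, hφ, hτy, fun hsq => ?_⟩
  have h1 := SqSc_conj E r hsq g'⁻¹
  rw [inv_inv] at h1
  refine hσ (SqSc_of_pow E r h1 k fun x hx => ?_)
  exact hσk ⟨x, (le_sup_left : LX E r ≤ MX E r y) hx⟩

/-- the constants -/
private theorem const_bd (r n A₀ D d l p : ℕ) (hD : 3 ≤ D)
    (hd : d ≤ (4 * (6 * r * D)) ^ n * D ^ 2) (hl : l ≤ (6 * r * d) ^ A₀) (hp : p ≤ 2 * l) :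
    p ≤ D ^ ((24 * r + (24 * r + 1) * n + 2) * A₀ + 1) := by
  have hD1 : 1 ≤ D := by omega
  have hc : 24 * r ≤ D ^ (24 * r) :=
    (Nat.lt_pow_self (by omega : 1 < D)).le
  have h1 : 4 * (6 * r * D) ≤ D ^ (24 * r + 1) := by
    calc 4 * (6 * r * D) = (24 * r) * D := by ring
      _ ≤ D ^ (24 * r) * D := Nat.mul_le_mul_right _ hc
      _ = D ^ (24 * r + 1) := (pow_succ _ _).symm
  have h2 : 6 * r * d ≤ D ^ (24 * r + (24 * r + 1) * n + 2) := by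
    calc 6 * r * d ≤ D ^ (24 * r) * ((4 * (6 * r * D)) ^ n * D ^ 2) :=
          Nat.mul_le_mul (by omega) hd
      _ ≤ D ^ (24 * r) * ((D ^ (24 * r + 1)) ^ n * D ^ 2) :=
          Nat.mul_le_mul_left _ (Nat.mul_le_mul_right _ (Nat.pow_le_pow_left h1 n))
      _ = D ^ (24 * r + (24 * r + 1) * n + 2) := by
          rw [← pow_mul, ← pow_add, ← pow_add, add_assoc]
  calc p ≤ 2 * l := hp
    _ ≤ D * (6 * r * d) ^ A₀ := Nat.mul_le_mul (by omega) hl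
    _ ≤ D * (D ^ (24 * r + (24 * r + 1) * n + 2)) ^ A₀ :=
        Nat.mul_le_mul_left _ (Nat.pow_le_pow_left h2 A₀)
    _ = D ^ ((24 * r + (24 * r + 1) * n + 2) * A₀ + 1) := by
        rw [← pow_mul, pow_succ, mul_comm]

open scoped Classical in
/-- one prime of `S` outside the Cartan field of which `E[r]` is not dihedral -/
theorem step (r : ℕ) [Fact r.Prime] : ∃ A : ℕ, ∀ (E : WeierstrassCurve ℚ) [E.IsElliptic],
    E.j ≠ 0 → E.j ≠ 1728 → ∀ [NumberField (LX E r)] (S : Finset ℕ) (y : ℕ → QB),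
    (∀ p ∈ S, 29 ≤ p ∧ NonsplitWith E p (y p)) → ∀ p₀ ∈ S,
    (∃ σ : GQ, σ (y p₀) ≠ y p₀ ∧ ¬ SqSc E r σ) →
    ∃ τ : GQ, τ (y p₀) ≠ y p₀ ∧ ∏ q ∈ S with τ (y q) ≠ y q, q ≤ (discr (LX E r)).natAbs ^ A := by
  obtain ⟨A₀, hA₀⟩ := least_prime (2 * (r ^ 2) ^ (r ^ 2))
  have hr : r.Prime := Fact.out
  have hr1 : 1 ≤ r := hr.one_lt.le
  refine ⟨((24 * r + (24 * r + 1) * (2 * (r ^ 2) ^ (r ^ 2)) + 2) * A₀ + 1) * 2, ?_⟩
  intro E _ hj0 hj1 _ S y hS p₀ hp₀ hnd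
  obtain ⟨σ, hσy, hσ⟩ := hnd
  obtain ⟨D, hDd⟩ : ∃ D, D = (discr (LX E r)).natAbs := ⟨_, rfl⟩
  have hD : 3 ≤ D := by
    rw [hDd]
    exact LX_gt' E r hσ
  rw [← hDd]
  obtain ⟨hp29, hnw⟩ := hS p₀ hp₀
  have hSp : ∀ p ∈ S, p.Prime := by
    intro p hp
    obtain ⟨h, -⟩ := (hS p hp).2
    exact h.out
  have hfp : Fact p₀.Prime := ⟨hSp p₀ hp₀⟩
  obtain ⟨k, i1, i2, e, m, s, hk, hN, hmsq, hs, hms, hys⟩ := nonsplitWith_data E hnw
  obtain ⟨hm0, hmq⟩ := m_primes E hj0 hj1 hp29 e hk hN hmsq hs hms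
  obtain ⟨-, hLG, hLf⟩ := LX_galois E r
  obtain ⟨hMf, hMG, hMn⟩ := MX_galois E r hs
  have hMN : NumberField (MX E r s) := ⟨⟩
  -- primes dividing `m`
  have hprimes : ∀ q : ℕ, q.Prime → (q : ℤ) ∣ m → q ∣ 6 * r * D := by
    intro q hq hqm
    have : Fact q.Prime := ⟨hq⟩
    by_cases h5 : 5 ≤ q
    · by_cases hqr : q = r
      · rw [hqr]
        exact ⟨6 * D, by ring⟩
      · obtain ⟨h1, h2⟩ := hmq q hq h5 hqm
        have h3 := ram_dvd E hj1 r q h5 hqr h1 h2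
        have h4 : q ∣ D := by
          rw [hDd]
          exact Int.natCast_dvd.1 h3
        exact Dvd.dvd.mul_left h4 _
    · have h2 := hq.two_le
      have hc : q = 2 ∨ q = 3 ∨ q = 4 := by omega
      rcases hc with rfl | rfl | rfl
      · exact ⟨3 * r * D, by ring⟩
      · exact ⟨2 * r * D, by ring⟩
      · exact absurd hq (by norm_num)
  have hpos : 0 < 6 * r * D := by positivity
  have hm : m.natAbs ≤ 6 * r * D := abs_le_of_primes hmsq hpos hprimes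
  have hσs : σ s ≠ s := fun h => hσy ((hys σ).2 h)
  obtain ⟨t₀, ht₀⟩ := exists_restr_normal (MX E r s) σ
  obtain ⟨ℓ, hℓ, hℓB, hℓd, hℓb, P, hP, t, ht, hts⟩ := hA₀ (MX E r s) hMn t₀ (6 * r) (by omega)
  have hfl : Fact ℓ.Prime := ⟨hℓ⟩
  have hℓ5 : 5 ≤ ℓ := by
    have h2 := hℓ.two_le
    by_contra hlt
    rw [not_le] at hlt
    have hc : ℓ = 2 ∨ ℓ = 3 ∨ ℓ = 4 := by omega
    rcases hc with rfl | rfl | rfl
    · exact hℓB ⟨3 * r, by ring⟩
    · exact hℓB ⟨2 * r, by ring⟩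
    · exact absurd hℓ (by norm_num)
  have hℓr : ℓ ≠ r := by
    rintro rfl
    exact hℓB (Dvd.intro_left _ rfl)
  obtain ⟨τ, hτR, hτs, hτsq⟩ := key_R E r hs hσs hσ t₀ ht₀ hℓd hP ht hts
    (fun τ => 2 * ℓ < ∏ p ∈ S.erase ℓ with τ (y p) ≠ y p, p → SqSc E r τ)
    (fun ι res hres Y hY => cp_local_set E hj0 hj1 (S.erase ℓ) y
      (fun p hp => hS p (Finset.mem_of_mem_erase hp)) r ℓ hℓ5 hℓr (Finset.notMem_erase ℓ S)
      ι res hres Y hY)
  refine ⟨τ, fun h => hτs ((hys τ).1 h), ?_⟩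
  have h1 : ∏ p ∈ S.erase ℓ with τ (y p) ≠ y p, p ≤ 2 * ℓ := by
    by_contra hcon
    exact hτsq (hτR (not_le.1 hcon))
  have h2 : ∏ p ∈ S with τ (y p) ≠ y p, p ≤ ℓ * ∏ p ∈ S.erase ℓ with τ (y p) ≠ y p, p := by
    rw [Finset.filter_erase]
    by_cases hmem : ℓ ∈ S.filter (fun p => τ (y p) ≠ y p)
    · rw [Finset.mul_prod_erase _ (fun p => p) hmem]
    · rw [Finset.erase_eq_of_notMem hmem]
      exact Nat.le_mul_of_pos_left _ hℓ.pos
  have h3 : ∏ p ∈ S with τ (y p) ≠ y p, p ≤ (2 * ℓ) ^ 2 := by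
    refine h2.trans ((Nat.mul_le_mul_left _ h1).trans ?_)
    nlinarith
  refine h3.trans ?_
  rw [pow_mul]
  refine Nat.pow_le_pow_left ?_ 2
  have hdM : (discr (MX E r s)).natAbs ≤
      (4 * (6 * r * D)) ^ (2 * (r ^ 2) ^ (r ^ 2)) * D ^ 2 := by
    refine (MX_discr E r hm0.ne hs).trans ?_
    rw [← hDd]
    refine Nat.mul_le_mul_right _ ?_
    calc (4 * m.natAbs) ^ Module.finrank ℚ (LX E r)
        ≤ (4 * (6 * r * D)) ^ Module.finrank ℚ (LX E r) :=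
          Nat.pow_le_pow_left (Nat.mul_le_mul_left _ hm) _
      _ ≤ _ := Nat.pow_le_pow_right (by omega) (hLf.trans (by omega))
  exact const_bd r _ A₀ D _ ℓ (2 * ℓ) hD hdM hℓb le_rfl

open scoped Classical in
/-- THEOREM CP+ -/
theorem cpp_main (r : ℕ) [Fact r.Prime] : ∃ A : ℕ, ∀ (E : WeierstrassCurve ℚ) [E.IsElliptic],
    E.j ≠ 0 → E.j ≠ 1728 → ∀ [NumberField (LX E r)] (S : Finset ℕ) (y : ℕ → QB) (k : ℕ),
    (∀ p ∈ S, 29 ≤ p ∧ NonsplitWith E p (y p) ∧ ∃ σ : GQ, σ (y p) ≠ y p ∧ ¬ SqSc E r σ) →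
    Module.finrank ℚ (IntermediateField.adjoin ℚ (y '' (S : Set ℕ))) ≤ 2 ^ k →
    ∏ p ∈ S, p ≤ (discr (LX E r)).natAbs ^ (A * k) := by
  obtain ⟨A, hA⟩ := step r
  refine ⟨A, ?_⟩
  intro E _ hj0 hj1 _ S y k hS hfin
  rw [pow_mul]
  have hD : 1 ≤ (discr (LX E r)).natAbs :=
    Nat.one_le_iff_ne_zero.2 (Int.natAbs_ne_zero.2 (discr_ne_zero _))
  refine prod_bd y _ (Nat.one_le_pow _ _ hD) k S (fun p hp => ?_) (fun p hp => ?_) hfin
  · have := (hS p hp).1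
    omega
  · obtain ⟨τ, h1, h2⟩ := hA E hj0 hj1 S y (fun p hp => ⟨(hS p hp).1, (hS p hp).2.1⟩) p hp
      (hS p hp).2.2
    exact ⟨τ, h1, h2⟩

end Pool.Agent.H80.CPP
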