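import Pool.Agent.H27.SU.TRdef

/-!
# The compositum of quadratic fields unramified outside a given integer
-/

set_option autoImplicit false

namespace Pool.Agent.H80.CPP

open Pool.Agent.H27.SU IntermediateField
open scoped Classical

/-- the degree of a field generated by square roots of integers -/
theorem finrank_adj (T : Finset QB) (h : ∀ x ∈ T, ∃ n : ℤ, x ^ 2 = (n : QB)) :
    Module.finrank ℚ (adjoin ℚ (T : Set QB)) ≤ 2 ^ T.card := by
  have hAlg : Algebra.IsAlgebraic ℚ QB := AlgebraicClosure.isAlgebraic ℚ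
  induction T using Finset.induction_on with
  | empty =>
    rw [Finset.coe_empty, adjoin_empty, IntermediateField.finrank_bot]
    simp
  | insert a T ha ih =>
    have h1 := ih fun x hx => h x (Finset.mem_insert_of_mem hx)
    obtain ⟨n, hn⟩ := h a (Finset.mem_insert_self a T)
    have h3 : Module.finrank ℚ (adjoin ℚ ({a} : Set QB)) ≤ 2 := by
      have hint : Algebra.IsIntegral ℚ QB := inferInstance
      rw [IntermediateField.adjoin.finrank (Algebra.IsIntegral.isIntegral a)]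
      have hne : (Polynomial.X ^ 2 - Polynomial.C (n : ℚ) : Polynomial ℚ) ≠ 0 :=
        Polynomial.X_pow_sub_C_ne_zero (by norm_num) _
      have h4 : (minpoly ℚ a).natDegree ≤
          (Polynomial.X ^ 2 - Polynomial.C (n : ℚ) : Polynomial ℚ).natDegree := by
        refine Polynomial.natDegree_le_of_dvd (minpoly.dvd ℚ a ?_) hne
        simp [hn]
      rwa [Polynomial.natDegree_X_pow_sub_C] at h4
    rw [Finset.coe_insert, Set.insert_eq, adjoin_union, Finset.card_insert_of_notMem ha, pow_succ,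
      mul_comm]
    exact (finrank_sup_le _ _).trans (Nat.mul_le_mul h3 h1)

/-- square roots of natural numbers with prime factors in a finite set -/
private theorem root_mem (F : IntermediateField ℚ QB) (N : ℕ)
    (hF : ∀ q : ℕ, q.Prime → q ∣ N → ∃ u ∈ F, u ^ 2 = (q : QB)) :
    ∀ n : ℕ, n ≠ 0 → (∀ q : ℕ, q.Prime → q ∣ n → q ∣ N) → ∃ u ∈ F, u ^ 2 = (n : QB) := by
  intro n
  induction n using induction_on_primes with
  | zero => exact fun h => absurd rfl h
  | one => exact fun _ _ => ⟨1, one_mem F, by norm_num⟩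
  | prime_mul q a hq ih =>
    intro h0 h
    obtain ⟨u, hu, hu2⟩ := hF q hq (h q hq (dvd_mul_right q a))
    obtain ⟨v, hv, hv2⟩ := ih (right_ne_zero_of_mul h0) fun l hl hd => h l hl (Dvd.dvd.mul_left hd q)
    exact ⟨u * v, mul_mem hu hv, by rw [mul_pow, hu2, hv2]; push_cast; rfl⟩

/-- the degree of the compositum of quadratic fields unramified outside `N` -/
theorem finrank_cart (y : ℕ → QB) (S : Finset ℕ) {N : ℕ} (hN : N ≠ 0)
    (h : ∀ p ∈ S, ∃ m : ℤ, m ≠ 0 ∧ y p ^ 2 = (m : QB) ∧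
      ∀ q : ℕ, q.Prime → (q : ℤ) ∣ m → q ∣ N) :
    Module.finrank ℚ (adjoin ℚ (y '' (S : Set ℕ))) ≤ 2 ^ (N.primeFactors.card + 1) := by
  have hAlg : Algebra.IsAlgebraic ℚ QB := AlgebraicClosure.isAlgebraic ℚ
  obtain ⟨i, hi⟩ := IsAlgClosed.exists_pow_nat_eq (-1 : QB) (n := 2) two_pos
  have hw : ∀ q : ℕ, ∃ w : QB, w ^ 2 = (q : QB) := fun q =>
    IsAlgClosed.exists_pow_nat_eq (q : QB) (n := 2) two_pos
  choose w hw using hw
  obtain ⟨T, hT⟩ : ∃ T : Finset QB, T = insert i (N.primeFactors.image w) := ⟨_, rfl⟩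
  have hcard : T.card ≤ N.primeFactors.card + 1 := by
    rw [hT]
    exact (Finset.card_insert_le _ _).trans (Nat.add_le_add_right Finset.card_image_le 1)
  have hTfin := finrank_adj T (fun x hx => by
    rw [hT, Finset.mem_insert, Finset.mem_image] at hx
    rcases hx with rfl | ⟨q, -, rfl⟩
    · exact ⟨-1, by rw [hi]; push_cast; rfl⟩
    · exact ⟨q, by rw [hw]; push_cast; rfl⟩)
  have hiT : i ∈ adjoin ℚ (T : Set QB) := subset_adjoin _ _ (by rw [hT]; simp)
  have hF : ∀ q : ℕ, q.Prime → q ∣ N → ∃ u ∈ adjoin ℚ (T : Set QB), u ^ 2 = (q : QB) := by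
    intro q hq hd
    refine ⟨w q, subset_adjoin _ _ ?_, hw q⟩
    rw [hT, Finset.mem_coe, Finset.mem_insert]
    exact Or.inr (Finset.mem_image_of_mem w (Nat.mem_primeFactors.2 ⟨hq, hd, hN⟩))
  have hle : adjoin ℚ (y '' (S : Set ℕ)) ≤ adjoin ℚ (T : Set QB) := by
    rw [adjoin_le_iff]
    rintro _ ⟨p, hp, rfl⟩
    obtain ⟨m, hm0, hy, hm⟩ := h p hp
    obtain ⟨u, hu, hu2⟩ := root_mem _ N hF m.natAbs (Int.natAbs_ne_zero.2 hm0) (fun q hq hd =>
      hm q hq (Int.natCast_dvd.2 hd))
    have h1 : ∃ v ∈ adjoin ℚ (T : Set QB), v ^ 2 = (m : QB) := by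
      rcases Int.natAbs_eq m with h2 | h2
      · refine ⟨u, hu, ?_⟩
        rw [hu2]
        conv_rhs => rw [h2, Int.cast_natCast]
      · refine ⟨i * u, mul_mem hiT hu, ?_⟩
        rw [mul_pow, hi, hu2]
        conv_rhs => rw [h2, Int.cast_neg, Int.cast_natCast]
        ring
    obtain ⟨v, hv, hv2⟩ := h1
    rcases sq_eq_sq_iff_eq_or_eq_neg.1 (hy.trans hv2.symm) with h3 | h3
    · rw [h3]
      exact hv
    · rw [h3]
      exact neg_mem hv
  have hfd : FiniteDimensional ℚ (adjoin ℚ (T : Set QB)) :=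
    finiteDimensional_adjoin fun x _ => (hAlg.isAlgebraic x).isIntegral
  have h5 : Module.finrank ℚ (adjoin ℚ (y '' (S : Set ℕ))) ≤
      Module.finrank ℚ (adjoin ℚ (T : Set QB)) := by
    have h6 := finrank_bot_mul_relfinrank hle
    have h7 : 0 < Module.finrank ℚ (adjoin ℚ (T : Set QB)) := Module.finrank_pos
    have h8 : relfinrank (adjoin ℚ (y '' (S : Set ℕ))) (adjoin ℚ (T : Set QB)) ≠ 0 := by
      intro h0
      rw [h0, mul_zero] at h6
      omega
    rw [← h6]
    exact Nat.le_mul_of_pos_right _ (Nat.pos_of_ne_zero h8)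
  exact h5.trans (hTfin.trans (Nat.pow_le_pow_right two_pos hcard))

end Pool.Agent.H80.CPP
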