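import Pool.Agent.H80.CPP.Car
import Pool.Agent.H80.CPP.Fin
import Pool.Agent.H80.CPP.Fld

/-!
# A square root generating the Cartan field
-/

set_option autoImplicit false

namespace Pool.Agent.H80.CPP

open NumberField Pool.Agent.H27.SU Pool.Agent.H85.CP Pool.Agent.H82.HW Pool.Agent.H82.SV
  Pool.Agent.H82.SW Pool.Agent.H82.SX Pool.Agent.H82.MU
open scoped Classical

theorem cart_gen (E : WeierstrassCurve ℚ) [E.IsElliptic] {p : ℕ} {K : IntermediateField ℚ QB}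
    (h : CartanField E p K) : ∃ (s : QB) (m : ℤ), s ∈ K ∧ Squarefree m ∧ s ^ 2 = (m : QB) ∧
      NonsplitWith E p s ∧ ∀ σ : GQ, σ s ≠ s ↔ ∃ x ∈ K, σ x ≠ x := by
  obtain ⟨-, hfp, e, he⟩ := h
  have hfin : Fintype (GaloisField p 2) := Fintype.ofFinite _
  have hk : Fintype.card (GaloisField p 2) = p ^ 2 := by
    have := GaloisField.card p 2 (by norm_num)
    rw [Nat.card_eq_fintype_card] at this
    exact this
  have h1 : ∀ σ : GQ, (∀ x ∈ K, σ x = x) → IsLin e (rhoQ E p σ) := by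
    intro σ hσ
    obtain ⟨c, hc⟩ := (he σ).1 hσ
    exact ⟨c, fun v => hc v ((rhoQ E p σ).1 v) (rhoQ_coe E p σ v).symm⟩
  have h2 : ∀ σ : GQ, (∃ x ∈ K, σ x ≠ x) → IsSemi e p (rhoQ E p σ) := by
    intro σ hσ
    obtain ⟨c, hc⟩ := (he σ).2 hσ
    exact ⟨c, fun v => hc v ((rhoQ E p σ).1 v) (rhoQ_coe E p σ v).symm⟩
  have hN : ∀ σ, IsLin e (rhoQ E p σ) ∨ IsSemi e p (rhoQ E p σ) := by
    intro σ
    by_cases hσ : ∀ x ∈ K, σ x = x
    · exact Or.inl (h1 σ hσ)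
    · push Not at hσ
      exact Or.inr (h2 σ hσ)
  obtain ⟨m, s, hmsq, hs, hms⟩ := qf_exists E e hk hN
  have hiff : ∀ σ : GQ, σ s = s ↔ ∀ x ∈ K, σ x = x := by
    intro σ
    rw [← hms σ]
    constructor
    · intro h
      by_contra hσ
      push Not at hσ
      exact not_lin_semi e hk h (h2 σ hσ)
    · exact h1 σ
  have hiff' : ∀ σ : GQ, σ s ≠ s ↔ ∃ x ∈ K, σ x ≠ x := by
    intro σ
    rw [ne_eq, hiff σ]
    push Not
    rfl
  refine ⟨s, m, ?_, hmsq, hs, ⟨hfp, e, fun σ => ⟨fun h => (he σ).1 ((hiff σ).1 h),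
    fun h => (he σ).2 ((hiff' σ).1 h)⟩⟩, hiff'⟩
  have hAlg : Algebra.IsAlgebraic ℚ QB := AlgebraicClosure.isAlgebraic ℚ
  have hClo : IsAlgClosure ℚ QB := ⟨inferInstance, hAlg⟩
  have hGal : IsGalois ℚ QB := IsAlgClosure.isGalois ℚ QB
  rw [← InfiniteGalois.fixedField_fixingSubgroup K, IntermediateField.mem_fixedField_iff]
  intro σ hσ
  rw [hiff σ]
  intro x hx
  exact (IntermediateField.mem_fixingSubgroup_iff K σ).1 hσ x hx

/-- the primes dividing `m`, `ℚ(√m)` the Cartan field of `p` -/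
theorem m_data (E : WeierstrassCurve ℚ) [E.IsElliptic] (hj0 : E.j ≠ 0) (hj1 : E.j ≠ 1728)
    {p : ℕ} (hp : 29 ≤ p) {s : QB} (hE : NonsplitWith E p s) {m : ℤ} (hmsq : Squarefree m)
    (hs : s ^ 2 = (m : QB)) : m < 0 ∧ ¬ (p : ℤ) ∣ m ∧ ∀ q : ℕ, q.Prime → 5 ≤ q → (q : ℤ) ∣ m →
      0 < padicValRat q (E.j - 1728) ∧ Odd (padicValRat q (E.j - 1728)) ∧ 0 ≤ padicValRat q E.j := by
  obtain ⟨hfp, -⟩ := id hE
  obtain ⟨k, i1, i2, e, m', s', hk, hN, -, -, hms', hys⟩ := nonsplitWith_data E hE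
  have hms : ∀ σ : GQ, IsLin e (rhoQ E p σ) ↔ σ s = s := fun σ => (hms' σ).trans (hys σ).symm
  obtain ⟨h1, h2⟩ := m_primes E hj0 hj1 hp e hk hN hmsq hs hms
  refine ⟨h1, ?_, ?_⟩
  · intro h
    have hjp : 0 ≤ padicValRat p E.j := qm_p E hj0 hj1 (by omega) e hk hN
    have hm := qf_p E hp hjp e hk hN hmsq hs hms
    have h1 : (m : ZMod p) = 0 := (ZMod.intCast_zmod_eq_zero_iff_dvd m p).2 h
    have h2 : legendreSym p m = 0 := (legendreSym.eq_zero_iff p m).2 h1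
    rw [h2] at hm
    norm_num at hm
  · intro q hq h5 hd
    have hfq : Fact q.Prime := ⟨hq⟩
    obtain ⟨h3, h4⟩ := h2 q hq h5 hd
    refine ⟨h3, h4, ?_⟩
    have h1 : min (padicValRat q (E.j - 1728)) (padicValRat q (1728 : ℚ)) ≤
        padicValRat q (E.j - 1728 + 1728) :=
      padicValRat.min_le_padicValRat_add (by rw [sub_add_cancel]; exact hj0)
    rw [sub_add_cancel] at h1
    have h2 : 0 ≤ padicValRat q (1728 : ℚ) := by
      have h3 : padicValRat q (1728 : ℚ) = (padicValNat q 1728 : ℤ) := by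
        have := padicValRat.of_nat (p := q) (n := 1728)
        exact_mod_cast this
      rw [h3]
      positivity
    exact (le_min h3.le h2).trans h1

/-- the prime divisors of `m` divide `6 r D` -/
theorem m_dvd (E : WeierstrassCurve ℚ) [E.IsElliptic] (hj0 : E.j ≠ 0) (hj1 : E.j ≠ 1728)
    (r : ℕ) [Fact r.Prime] [NumberField (LX E r)]
    {p : ℕ} (hp : 29 ≤ p) {s : QB} (hE : NonsplitWith E p s) {m : ℤ} (hmsq : Squarefree m)
    (hs : s ^ 2 = (m : QB)) {q : ℕ} (hq : q.Prime) (hqm : (q : ℤ) ∣ m) :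
    q ∣ 6 * r * (discr (LX E r)).natAbs := by
  obtain ⟨-, -, h2⟩ := m_data E hj0 hj1 hp hE hmsq hs
  obtain ⟨-, hLG, -⟩ := LX_galois E r
  have hfq : Fact q.Prime := ⟨hq⟩
  by_cases h5 : 5 ≤ q
  · by_cases hqr : q = r
    · rw [hqr]
      exact ⟨6 * (discr (LX E r)).natAbs, by ring⟩
    · obtain ⟨h1, h2, -⟩ := h2 q hq h5 hqm
      have h3 := ram_dvd E hj1 r q h5 hqr h1 h2
      exact Dvd.dvd.mul_left (Int.natCast_dvd.1 h3) _
  · have h2 := hq.two_le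
    have hc : q = 2 ∨ q = 3 ∨ q = 4 := by omega
    rcases hc with rfl | rfl | rfl
    · exact ⟨3 * r * (discr (LX E r)).natAbs, by ring⟩
    · exact ⟨2 * r * (discr (LX E r)).natAbs, by ring⟩
    · exact absurd hq (by norm_num)

end Pool.Agent.H80.CPP
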