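import Pool.Agent.H80.CPP.Core
import Pool.Agent.H80.CPP.TypA
import Pool.Agent.H80.CPP.TypB
import Pool.Agent.H85.CP.Bri

/-!
# THEOREM CP+: products of nonsplit primes
-/

set_option autoImplicit false

namespace Pool.Agent.H80.CPP

open NumberField Pool.Agent.H27.SU Pool.Agent.H85.CP Pool.Agent.H82.HW Pool.Agent.H82.SV
  Pool.Agent.H82.SW Pool.Agent.H82.SX Pool.Agent.H82.MU
open scoped Classical

/-- the product of the primes below `29` -/
private theorem small_prod (S : Finset ℕ) (hS : ∀ p ∈ S, p.Prime ∧ p < 29) :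
    ∏ p ∈ S, p ≤ 3 ^ 18 := by
  have hsub : S ⊆ {2, 3, 5, 7, 11, 13, 17, 19, 23} := by
    intro p hp
    obtain ⟨h1, h2⟩ := hS p hp
    interval_cases p <;> first | (exfalso; revert h1; decide) | decide
  have h1 : ∏ p ∈ S, p ≤ ∏ p ∈ ({2, 3, 5, 7, 11, 13, 17, 19, 23} : Finset ℕ), p := by
    refine Finset.prod_le_prod_of_subset_of_one_le' hsub fun p hp _ => ?_
    revert hp
    simp only [Finset.mem_insert, Finset.mem_singleton]
    omega
  exact h1.trans (by decide)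

/-- the number of prime factors of `6 r D` -/
private theorem omega_le (r D : ℕ) (hr : r.Prime) (hD : D ≠ 0) :
    (6 * r * D).primeFactors.card ≤ D.primeFactors.card + 3 := by
  have h6 : (6 * r * D).primeFactors = (Nat.primeFactors 6 ∪ r.primeFactors) ∪ D.primeFactors := by
    rw [Nat.primeFactors_mul (mul_ne_zero (by norm_num) hr.ne_zero) hD,
      Nat.primeFactors_mul (by norm_num) hr.ne_zero]
  have h2 : (Nat.primeFactors 6).card ≤ 2 := by
    have h3 : Nat.primeFactors 6 ⊆ {2, 3} := by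
      intro q hq
      have h4 := Nat.prime_of_mem_primeFactors hq
      have h5 := Nat.le_of_dvd (by norm_num) (Nat.dvd_of_mem_primeFactors hq)
      have h6 := Nat.dvd_of_mem_primeFactors hq
      interval_cases q <;> revert h4 h6 <;> decide
    exact (Finset.card_le_card h3).trans (by decide)
  have h7 : r.primeFactors.card = 1 := by
    rw [hr.primeFactors, Finset.card_singleton]
  rw [h6]
  refine (Finset.card_union_le _ _).trans ?_
  have h8 := Finset.card_union_le (Nat.primeFactors 6) r.primeFactors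
  omega

/-- the types of curves for which no Cartan field matters -/
def Typ (E : WeierstrassCurve ℚ) (r : ℕ) : Prop :=
  (3 ≤ r ∧ Nfed6cde5.HasFullTorsionAction E r) ∨
    (r = 2 ∧ (∀ x : ℚ, 4 * x ^ 3 + E.b₂ * x ^ 2 + 2 * E.b₄ * x + E.b₆ ≠ 0) ∧
      (0 < E.Δ ∨ ∃ q : ℕ, q.Prime ∧ q % 4 = 1 ∧ Odd (padicValRat q E.Δ)))

private theorem typ_cases (E : WeierstrassCurve ℚ) [E.IsElliptic] (r : ℕ) [Fact r.Prime]
    (h : Typ E r) {s : QB} {m : ℤ} (hm0 : m < 0) (hs : s ^ 2 = (m : QB)) :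
    (∃ σ : GQ, σ s ≠ s ∧ ¬ SqSc E r σ) ∨ ∃ q : ℕ, q.Prime ∧ q % 4 = 1 ∧ q ≠ r ∧ (q : ℤ) ∣ m := by
  rcases h with ⟨hr, hf⟩ | ⟨rfl, h2, hD⟩
  · exact Or.inl (typ_surj E r hr (full_surj E r hf) (exists_moves hm0 hs))
  · rcases hD with hD | ⟨q, hq, hq4, hodd⟩
    · exact Or.inl (typ_two E (no_two E h2) hm0 (Or.inl hD) hs)
    · by_cases hqm : (q : ℤ) ∣ m
      · exact Or.inr ⟨q, hq, hq4, by omega, hqm⟩
      · exact Or.inl (typ_two E (no_two E h2) hm0 (Or.inr ⟨q, hq, hqm, hodd⟩) hs)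

theorem typ_gt (E : WeierstrassCurve ℚ) [E.IsElliptic] (r : ℕ) [Fact r.Prime]
    (h : Typ E r) [NumberField (LX E r)] : 3 ≤ (discr (LX E r)).natAbs := by
  obtain ⟨i, hi⟩ := IsAlgClosed.exists_pow_nat_eq (-1 : QB) (n := 2) two_pos
  rcases typ_cases E r h (m := -1) (s := i) (by norm_num) (by rw [hi]; push_cast; rfl) with
    ⟨σ, -, hσ⟩ | ⟨q, hq, -, -, hd⟩
  · exact LX_gt' E r hσ
  · exfalso
    have h4 : (q : ℤ) ∣ 1 := by rwa [dvd_neg] at hd
    have h5 : q ∣ 1 := by exact_mod_cast h4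
    exact hq.one_lt.ne' (Nat.dvd_one.1 h5)

/-- squarefree integers with square roots in the same quadratic field -/
private theorem same_q {K : IntermediateField ℚ QB} {s : QB} {m : ℤ} (hm0 : m < 0)
    (hs : s ^ 2 = (m : QB)) (hK : ∀ σ : GQ, σ s ≠ s ↔ ∃ x ∈ K, σ x ≠ x) {q : ℕ} (hq : q.Prime)
    {m' : ℤ} (hsf : Squarefree m') (hqm : (q : ℤ) ∣ m') {y : QB} (hyK : y ∈ K)
    (hy : y ^ 2 = (m' : QB)) : (q : ℤ) ∣ m := by
  have hfq : Fact q.Prime := ⟨hq⟩
  have hm'0 : m' ≠ 0 := hsf.ne_zero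
  have hval : padicValRat q (m' : ℚ) = 1 := by
    rw [padicValRat.of_int]
    have h1 : padicValInt q m' = 1 := by
      apply le_antisymm
      · by_contra hcon
        have h2 : q ^ 2 ∣ m'.natAbs := by
          have h3 : 2 ≤ padicValNat q m'.natAbs := by
            have : padicValInt q m' = padicValNat q m'.natAbs := rfl
            omega
          exact (padicValNat_dvd_iff_le (Int.natAbs_ne_zero.2 hm'0)).2 h3
        have h4 : (q : ℤ) * q ∣ m' := by
          have h5 : ((q ^ 2 : ℕ) : ℤ) ∣ m' := Int.natCast_dvd.2 h2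
          rw [sq] at h5
          exact_mod_cast h5
        have h6 := hsf q h4
        rw [Int.isUnit_iff] at h6
        have := hq.one_lt
        rcases h6 with h6 | h6 <;> omega
      · have h2 : 1 ≤ padicValNat q m'.natAbs :=
          one_le_padicValNat_of_dvd (Int.natAbs_ne_zero.2 hm'0) (Int.natCast_dvd.1 hqm)
        exact h2
    rw [h1]
    rfl
  have hsσ : ∀ σ : GQ, σ s = s ∨ σ s = -s := by
    intro σ
    apply sq_eq_sq_iff_eq_or_eq_neg.1
    rw [← map_pow, hs, map_intCast]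
  have hyσ : ∀ σ : GQ, σ y = y ∨ σ y = -y := by
    intro σ
    apply sq_eq_sq_iff_eq_or_eq_neg.1
    rw [← map_pow, hy, map_intCast]
  have hfixy : ∀ σ : GQ, σ s = s → σ y = y := by
    intro σ hσ
    by_contra hne
    exact (hK σ).2 ⟨y, hyK, hne⟩ hσ
  have hodd : ∀ t : ℚ, t ^ 2 ≠ (m' : ℚ) := by
    intro t ht
    have ht0 : t ≠ 0 := by
      rintro rfl
      apply hm'0
      have h1 : (m' : ℚ) = 0 := by rw [← ht]; norm_num
      exact_mod_cast h1
    have h1 := congrArg (padicValRat q) ht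
    rw [sq, padicValRat.mul ht0 ht0, hval] at h1
    omega
  have hmv : ∀ σ : GQ, σ s ≠ s → σ y ≠ y := by
    intro σ hσ hσy
    have hall : ∀ τ : GQ, τ y = y := by
      intro τ
      rcases hsσ τ with h | h
      · exact hfixy τ h
      · have h1 : σ s = -s := (hsσ σ).resolve_left hσ
        have h2 : (σ⁻¹ : GQ) s = -s := by
          have h3 : (σ⁻¹ : GQ) (σ s) = s := by
            rw [← AlgEquiv.mul_apply, inv_mul_cancel, AlgEquiv.one_apply]
          rw [h1, map_neg] at h3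
          rw [← neg_eq_iff_eq_neg]
          exact h3
        have h4 : (σ⁻¹ * τ) s = s := by
          rw [AlgEquiv.mul_apply, h, map_neg, h2, neg_neg]
        have h5 := hfixy _ h4
        calc τ y = σ ((σ⁻¹ * τ) y) := by
              rw [← AlgEquiv.mul_apply, ← mul_assoc, mul_inv_cancel, one_mul]
          _ = σ y := by rw [h5]
          _ = y := hσy
    obtain ⟨t, ht⟩ := fixed_rat y hall
    apply hodd t
    rw [ht] at hy
    exact_mod_cast hy
  have hprod : ∀ σ : GQ, σ (s * y) = s * y := by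
    intro σ
    rw [map_mul]
    by_cases hσ : σ s = s
    · rw [hσ, hfixy σ hσ]
    · rw [(hsσ σ).resolve_left hσ, (hyσ σ).resolve_left (hmv σ hσ), neg_mul_neg]
  obtain ⟨t, ht⟩ := fixed_rat _ hprod
  have h5 : (t ^ 2 : ℚ) = m * m' := by
    have h6 : ((t : QB)) ^ 2 = (m : QB) * (m' : QB) := by
      rw [← ht, mul_pow, hs, hy]
    exact_mod_cast h6
  by_contra hqm0
  have hmq : (m : ℚ) ≠ 0 := by exact_mod_cast hm0.ne
  have hmq' : (m' : ℚ) ≠ 0 := by exact_mod_cast hm'0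
  have ht0 : t ≠ 0 := by
    rintro rfl
    exact mul_ne_zero hmq hmq' (by rw [← h5]; norm_num)
  have h8 : padicValRat q (t ^ 2) = padicValRat q ((m : ℚ) * m') := by rw [h5]
  rw [sq, padicValRat.mul ht0 ht0, padicValRat.mul hmq hmq', hval, padicValRat.of_int,
    padicValInt.eq_zero_of_not_dvd hqm0] at h8
  push_cast at h8
  omega

/-- products of nonsplit primes -/
theorem cpp_last (r : ℕ) (hr : r.Prime) : ∃ A : ℕ, ∀ (E : WeierstrassCurve ℚ) [E.IsElliptic],
    E.j ≠ 0 → E.j ≠ 1728 → ∃ _ : NumberField (XField E r),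
    (∀ (F : IntermediateField ℚ QB) [FiniteDimensional ℚ F] (k : ℕ) (S : Finset ℕ),
      Module.finrank ℚ F ≤ 2 ^ k →
      (∀ p ∈ S, 29 ≤ p ∧ ∃ K : IntermediateField ℚ QB, K ≤ F ∧ CartanField E p K ∧
        ((∃ σ : GQ, (∃ x ∈ K, σ x ≠ x) ∧ ¬ SquareScalar E r σ) ∨
          ∃ (q : ℕ) (m : ℤ) (y : QB), q.Prime ∧ q % 4 = 1 ∧ q ≠ r ∧ Squarefree m ∧
            (q : ℤ) ∣ m ∧ y ∈ K ∧ y ^ 2 = (m : QB))) →
      ∏ p ∈ S, p ≤ (discr (XField E r)).natAbs ^
        (A * min k (discr (XField E r)).natAbs.primeFactors.card)) ∧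
    (Typ E r → ∀ S : Finset ℕ, (∀ p ∈ S, ∃ _ : Fact p.Prime, InNonsplitNormaliser E p) →
      ∏ p ∈ S, p ≤ (discr (XField E r)).natAbs ^
        (A * (discr (XField E r)).natAbs.primeFactors.card)) := by
  have : Fact r.Prime := ⟨hr⟩
  obtain ⟨A₁, hA₁⟩ := cpp_core r
  refine ⟨18 + 5 * A₁, ?_⟩
  intro E _ hj0 hj1
  obtain ⟨hf, hLG, -⟩ := LX_galois E r
  rw [XField_eq]
  have hNF : NumberField (LX E r) := ⟨⟩
  refine ⟨hNF, ?_⟩
  obtain ⟨D, hDd⟩ : ∃ D, D = (discr (LX E r)).natAbs := ⟨_, rfl⟩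
  have hD0 : D ≠ 0 := by
    rw [hDd]
    exact Int.natAbs_ne_zero.2 (discr_ne_zero _)
  have hom := omega_le r D hr hD0
  -- the product over primes `≥ 29`
  have key : ∀ (S : Finset ℕ) (s : ℕ → QB) (m : ℕ → ℤ) (k : ℕ), 3 ≤ D →
      (∀ p ∈ S, 29 ≤ p ∧ NonsplitWith E p (s p) ∧ Squarefree (m p) ∧
        s p ^ 2 = (m p : QB) ∧ ((∃ σ : GQ, σ (s p) ≠ s p ∧ ¬ SqSc E r σ) ∨
          ∃ q : ℕ, q.Prime ∧ q % 4 = 1 ∧ q ≠ r ∧ (q : ℤ) ∣ m p)) →
      Module.finrank ℚ (IntermediateField.adjoin ℚ (s '' (S : Set ℕ))) ≤ 2 ^ k →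
      ∏ p ∈ S, p ≤ D ^ (A₁ * min k (D.primeFactors.card + 4)) := by
    intro S s m k hD3 hS hk
    have hfin : Module.finrank ℚ (IntermediateField.adjoin ℚ (s '' (S : Set ℕ))) ≤
        2 ^ (min k (D.primeFactors.card + 4)) := by
      rcases min_choice k (D.primeFactors.card + 4) with h | h
      · rw [h]
        exact hk
      · rw [h]
        refine (finrank_cart s S (N := 6 * r * D) (mul_ne_zero
          (mul_ne_zero (by norm_num) hr.ne_zero) hD0) fun p hp => ?_).trans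
          (Nat.pow_le_pow_right two_pos (by omega))
        obtain ⟨hp29, h4, h2, h3, -⟩ := hS p hp
        refine ⟨m p, h2.ne_zero, h3, fun q hq hd => ?_⟩
        rw [hDd]
        exact m_dvd E hj0 hj1 r hp29 h4 h2 h3 hq hd
    have h1 := hA₁ E hj0 hj1 S s m _ hS hfin
    rwa [← hDd] at h1
  have hw1 : 3 ≤ D → 1 ≤ D.primeFactors.card := by
    intro h
    rw [Nat.one_le_iff_ne_zero, ne_eq, Finset.card_eq_zero, Nat.primeFactors_eq_empty]
    omega
  rw [← hDd]
  constructor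
  · intro F _ k S hF hS
    rcases S.eq_empty_or_nonempty with rfl | ⟨p₀, hp₀⟩
    · rw [Finset.prod_empty]
      exact Nat.one_le_pow _ _ (Nat.pos_of_ne_zero hD0)
    have hk1 : 1 ≤ k := by
      obtain ⟨-, K, hKF, hK, -⟩ := hS p₀ hp₀
      by_contra hk0
      have hk : k = 0 := by omega
      rw [hk, pow_zero] at hF
      have h1 := IntermediateField.finrank_bot_mul_relfinrank hKF
      have h2 : Module.finrank ℚ K = 2 := hK.1
      have h3 : 0 < Module.finrank ℚ F := Module.finrank_pos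
      rw [h2] at h1
      omega
    -- the data
    have hdat : ∀ p : ℕ, ∃ (s : QB) (m : ℤ), p ∈ S → s ∈ F ∧ 29 ≤ p ∧ NonsplitWith E p s ∧
        Squarefree m ∧ s ^ 2 = (m : QB) ∧ ((∃ σ : GQ, σ s ≠ s ∧ ¬ SqSc E r σ) ∨
          ∃ q : ℕ, q.Prime ∧ q % 4 = 1 ∧ q ≠ r ∧ (q : ℤ) ∣ m) := by
      intro p
      by_cases hp : p ∈ S
      · obtain ⟨hp29, K, hKF, hK, hc⟩ := hS p hp
        obtain ⟨s, m, h1, h2, h3, h4, h5⟩ := cart_gen E hK
        refine ⟨s, m, fun _ => ⟨hKF h1, hp29, h4, h2, h3, ?_⟩⟩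
        rcases hc with ⟨σ, hσ, hsc⟩ | ⟨q, m', y, hq, hq4, hqr, hsf, hqm, hyK, hy⟩
        · exact Or.inl ⟨σ, (h5 σ).2 hσ, fun h => hsc ((sqSc_iff E r σ).1 h)⟩
        · exact Or.inr ⟨q, hq, hq4, hqr,
            same_q (m_data E hj0 hj1 hp29 h4 h2 h3).1 h3 h5 hq hsf hqm hyK hy⟩
      · exact ⟨0, 0, fun h => absurd h hp⟩
    choose s m hdat using hdat
    have hD3 : 3 ≤ D := by
      obtain ⟨-, hp29, h4, h2, h3, hc⟩ := hdat p₀ hp₀
      rcases hc with ⟨σ, -, hσ⟩ | ⟨q, hq, hq4, hqr, hqm⟩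
      · rw [hDd]
        exact LX_gt' E r hσ
      · have h5 := (step2 E hj0 hj1 r {p₀} s m (fun p hp => by
          rw [Finset.mem_singleton] at hp
          rw [hp]
          exact ⟨hp29, h4, h2, h3⟩) (Finset.mem_singleton_self p₀) hq hq4 hqr hqm).1
        rw [hDd]
        omega
    have hle : Module.finrank ℚ (IntermediateField.adjoin ℚ (s '' (S : Set ℕ))) ≤ 2 ^ k := by
      refine le_trans ?_ hF
      have hle : IntermediateField.adjoin ℚ (s '' (S : Set ℕ)) ≤ F := by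
        rw [IntermediateField.adjoin_le_iff]
        rintro _ ⟨p, hp, rfl⟩
        exact (hdat p hp).1
      have h1 := IntermediateField.finrank_bot_mul_relfinrank hle
      have h3 : 0 < Module.finrank ℚ F := Module.finrank_pos
      have h4 : IntermediateField.relfinrank
          (IntermediateField.adjoin ℚ (s '' (S : Set ℕ))) F ≠ 0 := by
        intro h0
        rw [h0, mul_zero] at h1
        omega
      rw [← h1]
      exact Nat.le_mul_of_pos_right _ (Nat.pos_of_ne_zero h4)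
    refine (key S s m k hD3 (fun p hp => (hdat p hp).2) hle).trans ?_
    refine Nat.pow_le_pow_right (by omega) ?_
    have h1 := hw1 hD3
    have h2 : min k (D.primeFactors.card + 4) ≤ 5 * min k D.primeFactors.card := by omega
    calc A₁ * min k (D.primeFactors.card + 4) ≤ A₁ * (5 * min k D.primeFactors.card) :=
          Nat.mul_le_mul_left _ h2
      _ = (5 * A₁) * min k D.primeFactors.card := by ring
      _ ≤ (18 + 5 * A₁) * min k D.primeFactors.card := Nat.mul_le_mul_right _ (by omega)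
  · intro ht S hS
    have hD3 : 3 ≤ D := by
      rw [hDd]
      exact typ_gt E r ht
    have hw := hw1 hD3
    obtain ⟨T, hT⟩ : ∃ T, T = S.filter fun p => 29 ≤ p := ⟨_, rfl⟩
    have hP0 : ∏ p ∈ S with ¬ 29 ≤ p, p ≤ D ^ 18 := by
      refine (small_prod _ fun p hp => ?_).trans (Nat.pow_le_pow_left hD3 18)
      obtain ⟨h1, h2⟩ := Finset.mem_filter.1 hp
      obtain ⟨h3, -⟩ := hS p h1
      exact ⟨h3.out, not_le.1 h2⟩
    have hdat : ∀ p : ℕ, ∃ (s : QB) (m : ℤ), p ∈ T → 29 ≤ p ∧ NonsplitWith E p s ∧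
        Squarefree m ∧ s ^ 2 = (m : QB) ∧ ((∃ σ : GQ, σ s ≠ s ∧ ¬ SqSc E r σ) ∨
          ∃ q : ℕ, q.Prime ∧ q % 4 = 1 ∧ q ≠ r ∧ (q : ℤ) ∣ m) := by
      intro p
      by_cases hp : p ∈ T
      · rw [hT, Finset.mem_filter] at hp
        obtain ⟨hpS, hp29⟩ := hp
        obtain ⟨hfp, hE⟩ := hS p hpS
        obtain ⟨K, hK⟩ := cart_ex E (by omega) hE
        obtain ⟨s, m, h1, h2, h3, h4, h5⟩ := cart_gen E hK
        exact ⟨s, m, fun _ => ⟨hp29, h4, h2, h3,
          typ_cases E r ht (m_data E hj0 hj1 hp29 h4 h2 h3).1 h3⟩⟩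
      · exact ⟨0, 0, fun h => absurd h hp⟩
    choose s m hdat using hdat
    have hP1 := key T s m (Module.finrank ℚ (IntermediateField.adjoin ℚ (s '' (T : Set ℕ)))) hD3
      hdat Nat.lt_two_pow_self.le
    rw [← Finset.prod_filter_mul_prod_filter_not S (fun p => 29 ≤ p), ← hT]
    calc (∏ p ∈ T, p) * ∏ p ∈ S with ¬ 29 ≤ p, p
        ≤ D ^ (A₁ * min (Module.finrank ℚ (IntermediateField.adjoin ℚ (s '' (T : Set ℕ))))
            (D.primeFactors.card + 4)) * D ^ 18 := Nat.mul_le_mul hP1 hP0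
      _ = D ^ (A₁ * min (Module.finrank ℚ (IntermediateField.adjoin ℚ (s '' (T : Set ℕ))))
            (D.primeFactors.card + 4) + 18) := by rw [← pow_add]
      _ ≤ D ^ ((18 + 5 * A₁) * D.primeFactors.card) := by
          refine Nat.pow_le_pow_right (by omega) ?_
          have h2 : min (Module.finrank ℚ (IntermediateField.adjoin ℚ (s '' (T : Set ℕ))))
            (D.primeFactors.card + 4) ≤ 5 * D.primeFactors.card := by omega
          have h3 := Nat.mul_le_mul_left A₁ h2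
          nlinarith

end Pool.Agent.H80.CPP
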