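import Pool.Agent.H80.CPP.Last

/-!
# THEOREM CP+: one conclusion
-/

set_option autoImplicit false

namespace Pool.Agent.H80.CPP

open NumberField Pool.Agent.H27.SU Pool.Agent.H85.CP Pool.Agent.H82.HW Pool.Agent.H82.SV
  Pool.Agent.H82.SW Pool.Agent.H82.SX Pool.Agent.H82.MU
open scoped Classical

private theorem typ_cases' (E : WeierstrassCurve ℚ) [E.IsElliptic] (r : ℕ) [Fact r.Prime]
    (h : Typ E r) {s : QB} {m : ℤ} (hm0 : m < 0) (hs : s ^ 2 = (m : QB)) :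
    (∃ σ : GQ, σ s ≠ s ∧ ¬ SqSc E r σ) ∨ ∃ q : ℕ, q.Prime ∧ q % 4 = 1 ∧ q ≠ r ∧ (q : ℤ) ∣ m := by
  rcases h with ⟨hr, hf⟩ | ⟨rfl, h2, hD⟩
  · exact Or.inl (typ_surj E r hr (full_surj E r hf) (exists_moves hm0 hs))
  · rcases hD with hD | ⟨q, hq, hq4, hodd⟩
    · exact Or.inl (typ_two E (no_two E h2) hm0 (Or.inl hD) hs)
    · by_cases hqm : (q : ℤ) ∣ m
      · exact Or.inr ⟨q, hq, hq4, by omega, hqm⟩
      · exact Or.inl (typ_two E (no_two E h2) hm0 (Or.inr ⟨q, hq, hqm, hodd⟩) hs)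

theorem cpp_two (r : ℕ) (hr : r.Prime) : ∃ A : ℕ, ∀ (E : WeierstrassCurve ℚ) [E.IsElliptic],
    E.j ≠ 0 → E.j ≠ 1728 → ∃ _ : NumberField (XField E r),
    ∀ (F : IntermediateField ℚ QB) [FiniteDimensional ℚ F] (k : ℕ) (S : Finset ℕ),
      Module.finrank ℚ F ≤ 2 ^ k →
      (∀ p ∈ S, 29 ≤ p ∧ ∃ K : IntermediateField ℚ QB, K ≤ F ∧ CartanField E p K ∧
        ((∃ σ : GQ, (∃ x ∈ K, σ x ≠ x) ∧ ¬ SquareScalar E r σ) ∨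
          (∃ (q : ℕ) (m : ℤ) (y : QB), q.Prime ∧ q % 4 = 1 ∧ q ≠ r ∧ Squarefree m ∧
            (q : ℤ) ∣ m ∧ y ∈ K ∧ y ^ 2 = (m : QB)) ∨
          (3 ≤ r ∧ Nfed6cde5.HasFullTorsionAction E r) ∨
          (r = 2 ∧ (∀ x : ℚ, 4 * x ^ 3 + E.b₂ * x ^ 2 + 2 * E.b₄ * x + E.b₆ ≠ 0) ∧
            (0 < E.Δ ∨ ∃ q : ℕ, q.Prime ∧ q % 4 = 1 ∧ Odd (padicValRat q E.Δ))))) →
      ∏ p ∈ S, p ≤ (discr (XField E r)).natAbs ^
        (A * min k (discr (XField E r)).natAbs.primeFactors.card) := by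
  have : Fact r.Prime := ⟨hr⟩
  obtain ⟨A, hA⟩ := cpp_last r hr
  refine ⟨A, ?_⟩
  intro E _ hj0 hj1
  obtain ⟨hNF, h1, -⟩ := hA E hj0 hj1
  refine ⟨hNF, fun F _ k S hF hS => h1 F k S hF fun p hp => ?_⟩
  obtain ⟨hp29, K, hKF, hK, hc⟩ := hS p hp
  refine ⟨hp29, K, hKF, hK, ?_⟩
  rcases hc with hc | hc | hc
  · exact Or.inl hc
  · exact Or.inr hc
  · obtain ⟨s, m, hsK, hsf, hs, hnw, hiff⟩ := cart_gen E hK
    obtain ⟨hm0, -, -⟩ := m_data E hj0 hj1 hp29 hnw hsf hs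
    rcases typ_cases' E r hc hm0 hs with ⟨σ, hσ, hsc⟩ | ⟨q, hq, hq4, hqr, hqm⟩
    · exact Or.inl ⟨σ, (hiff σ).1 hσ, fun h => hsc ((sqSc_iff E r σ).2 h)⟩
    · exact Or.inr ⟨q, m, s, hq, hq4, hqr, hsf, hqm, hsK, hs⟩

end Pool.Agent.H80.CPP
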