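import Mathlib
import Pool.Agent.H80.CPP.Two

/-!
# MP_cda23d_nt: products of nonsplit primes are bounded by a power of the discriminant of one torsion field
-/

set_option autoImplicit false

namespace Pool.Agent.Results.MP_cda23d_nt.UniformPower

open Pool.Agent.H85.CP Pool.Agent.H80.CPP

/-- **Theorem.** For every prime `r` there is an exponent `A` such that for every elliptic curve `E/ℚ` with
`j(E) ≠ 0, 1728`, with `D` the discriminant of the number field generated by the `x`-coordinates of the points of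
`E[r]` and `ω(D)` the number of its prime factors, the following holds. Let `F` be a number field of degree at most
`2^k` and `S` a finite set of primes `p ≥ 29` such that the image of `ρ_{E,p}` is contained in the normaliser of a
nonsplit Cartan subgroup, with Cartan field `K ⊆ F`, and for each `p ∈ S`
* some `σ` which is not trivial on `K` has a square which does not act on `E[r]` as a scalar
  (`E[r]` is not dihedral for `K`), or
* `K` is ramified at a prime `q = 1 mod 4`, `q ≠ r`, or
* `r ≥ 3` and the representation of the Galois group on `E[r]` is surjective, or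
* `r = 2`, `E` has no rational point of order `2`, and `Δ(E) > 0` or `v_q(Δ(E))` is odd for a prime `q = 1 mod 4`.

Then the product of the primes in `S` is at most `|D|^(A min(k, ω(D)))`. (`F = K`, `k = 1`, `S = {p}`: every such
prime `p` is at most `|D|^A`.) -/
theorem result (r : ℕ) (hr : r.Prime) : ∃ A : ℕ, ∀ (E : WeierstrassCurve ℚ) [E.IsElliptic],
    E.j ≠ 0 → E.j ≠ 1728 → ∃ _ : NumberField (XField E r),
    ∀ (F : IntermediateField ℚ (AlgebraicClosure ℚ)) [FiniteDimensional ℚ F] (k : ℕ) (S : Finset ℕ),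
      Module.finrank ℚ F ≤ 2 ^ k →
      (∀ p ∈ S, 29 ≤ p ∧ ∃ K : IntermediateField ℚ (AlgebraicClosure ℚ), K ≤ F ∧ CartanField E p K ∧
        ((∃ σ : AlgebraicClosure ℚ ≃ₐ[ℚ] AlgebraicClosure ℚ,
            (∃ x ∈ K, σ x ≠ x) ∧ ¬ SquareScalar E r σ) ∨
          (∃ (q : ℕ) (m : ℤ) (y : AlgebraicClosure ℚ), q.Prime ∧ q % 4 = 1 ∧ q ≠ r ∧ Squarefree m ∧
            (q : ℤ) ∣ m ∧ y ∈ K ∧ y ^ 2 = (m : AlgebraicClosure ℚ)) ∨
          (3 ≤ r ∧ Nfed6cde5.HasFullTorsionAction E r) ∨
          (r = 2 ∧ (∀ x : ℚ, 4 * x ^ 3 + E.b₂ * x ^ 2 + 2 * E.b₄ * x + E.b₆ ≠ 0) ∧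
            (0 < E.Δ ∨ ∃ q : ℕ, q.Prime ∧ q % 4 = 1 ∧ Odd (padicValRat q E.Δ))))) →
      ∏ p ∈ S, p ≤ (NumberField.discr (XField E r)).natAbs ^
        (A * min k (NumberField.discr (XField E r)).natAbs.primeFactors.card) :=
  cpp_two r hr

end Pool.Agent.Results.MP_cda23d_nt.UniformPower
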