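import Pool.Agent.H80.CP.Loc

/-!
# Frobenius-type maps which are scalars on the `p`-torsion for several primes `p`
-/

set_option autoImplicit false

namespace Pool.Agent.H80.CPP

open WeierstrassCurve Polynomial Pool.Agent.H27.SU Pool.Agent.H82.HW Pool.Agent.H82.SV
  Pool.Agent.H82.SW Pool.Agent.H82.SX Pool.Agent.H82.MU Pool.Agent.H80.CP
open scoped Classical

/-- `G` acts as a scalar on `p ^ 2` points of order dividing `p` -/
def ScOn {K : Type} [Field K] [DecidableEq K] (W : WeierstrassCurve K)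
    (G : W.toAffine.Point →+ W.toAffine.Point) (p : ℕ) : Prop :=
  ∃ (V : Type) (_ : AddCommGroup V) (_ : Fintype V) (red : V →+ W.toAffine.Point) (s : ℕ),
    Fintype.card V = p ^ 2 ∧ (∀ v : V, p • v = 0) ∧ Function.Injective red ∧
      ∀ v, G (red v) = s • red v

/-- `scalar_disc` for all primes `p` at once -/
theorem scalar_disc_all {K : Type} [Field K] [DecidableEq K] [IsAlgClosed K] (q : ℕ) [Fact q.Prime]
    [CharP K q] (hq5 : 5 ≤ q) (W : WeierstrassCurve K) [W.IsShortNF] [W.IsElliptic] {A B : K[X]}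
    (hA : 2 ≤ A.natDegree) (hB : B.natDegree < 2 * A.natDegree + 1)
    (G : W.toAffine.Point →+ W.toAffine.Point)
    (hG : ∀ R, R ≠ 0 → G R ≠ 0 ∧ cx (G R) = A.eval (cx R) ∧ cy (G R) * cy R = B.eval (cx R)) :
    ∃ β : ℤ, β ^ 2 ≤ 4 * A.natDegree ∧
      (∀ p : ℕ, p.Prime → ScOn W G p → ((p : ℤ) ^ 2 ∣ 4 * A.natDegree - β ^ 2)) ∧
      ∀ n : ℤ, n ^ 2 + β * n + A.natDegree = 0 → ∀ R, R ≠ 0 → G R + n • R = 0 := by
  have h2 : (2 : K) ≠ 0 := by
    intro h
    have h1 : ((2 : ℕ) : K) = 0 := by exact_mod_cast h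
    rw [CharP.cast_eq_zero_iff K q] at h1
    have := Nat.le_of_dvd (by norm_num) h1
    omega
  obtain ⟨f, g, β, h1, hdeg, hβ⟩ := manin W h2 hA hB G hG
  refine ⟨β, hβ, ?_, ?_⟩
  · rintro p hp ⟨V, iV, iF, red, s, hV, hpV, hred, hs⟩
    have hdvd : ∀ n : ℤ, (p : ℤ) ∣ n + s → (p : ℤ) ^ 2 ∣ n ^ 2 + β * n + A.natDegree := by
      intro n hn
      rw [← hdeg n]
      obtain ⟨hcop, hdl, hsp⟩ := h1 n
      rcases Nat.eq_zero_or_pos (f n).natDegree with h0 | h0
      · rw [h0]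
        exact dvd_zero _
      · obtain ⟨ψ, hψ⟩ : ∃ ψ : W.toAffine.Point →+ W.toAffine.Point, ∀ R, ψ R = G R + n • R :=
          ⟨G + zsmulAddGroupHom n, fun R => rfl⟩
        obtain ⟨k, hk⟩ := ker_card q h2 W ψ hcop hdl h0 (fun R hR => by
          rw [hψ]
          exact hsp R hR)
        have hle : red.range ≤ ψ.ker := by
          rintro _ ⟨v, rfl⟩
          rw [AddMonoidHom.mem_ker, hψ, hs]
          obtain ⟨m, hm⟩ := hn
          have e : s • red v + n • red v = (n + s) • red v := by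
            rw [add_smul, natCast_zsmul, add_comm]
          rw [e, hm, mul_comm, mul_smul, natCast_zsmul, ← map_nsmul, hpV, map_zero, smul_zero]
        have hcard : Nat.card red.range = p ^ 2 := by
          rw [← hV, ← Nat.card_eq_fintype_card]
          exact (Nat.card_congr (AddMonoidHom.ofInjective hred).toEquiv).symm
        have h3 := AddSubgroup.card_dvd_of_le hle
        rw [hcard] at h3
        have h4 : p ^ 2 ∣ (f n).natDegree := by
          rw [hk]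
          exact dvd_mul_of_dvd_right h3 _
        exact_mod_cast h4
    have d1 := hdvd (-s) (by rw [neg_add_cancel]; exact dvd_zero _)
    have d2 := hdvd (-s + p) ⟨1, by ring⟩
    have d3 : (p : ℤ) ^ 2 ∣ p * (β - 2 * s) := by
      have e : (p : ℤ) * (β - 2 * s) = ((-s + p) ^ 2 + β * (-s + p) + A.natDegree) -
          ((-s) ^ 2 + β * (-s) + A.natDegree) - p ^ 2 * 1 := by ring
      rw [e]
      exact dvd_sub (dvd_sub d2 d1) (dvd_mul_right _ _)
    have d4 : (p : ℤ) ∣ β - 2 * s := by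
      rw [sq] at d3
      exact Int.dvd_of_mul_dvd_mul_left (by exact_mod_cast hp.ne_zero) d3
    have e : 4 * (A.natDegree : ℤ) - β ^ 2 =
        4 * ((-s) ^ 2 + β * (-s) + A.natDegree) - (β - 2 * s) ^ 2 := by ring
    rw [e]
    exact dvd_sub (dvd_mul_of_dvd_right d1 _) (pow_dvd_pow_of_dvd d4 2)
  · intro n hn R hR
    obtain ⟨hcop, hdl, hsp⟩ := h1 n
    rw [← hdeg n] at hn
    have hg := hdl.zero_of (by exact_mod_cast hn)
    rw [← (hsp R hR).zero, hg, eval_zero]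

/-- squares of distinct primes -/
theorem prod_sq_dvd (S : Finset ℕ) (hS : ∀ p ∈ S, p.Prime) (x : ℤ)
    (h : ∀ p ∈ S, (p : ℤ) ^ 2 ∣ x) : ((∏ p ∈ S, p : ℕ) : ℤ) ^ 2 ∣ x := by
  rw [Nat.cast_prod, ← Finset.prod_pow]
  refine Finset.prod_dvd_of_coprime (fun p hp q hq hpq => ?_) h
  show IsCoprime ((p : ℤ) ^ 2) ((q : ℤ) ^ 2)
  refine IsCoprime.pow ?_
  exact Nat.isCoprime_iff_coprime.2 ((Nat.coprime_primes (hS p hp) (hS q hq)).2 hpq)

/-- the square of a Frobenius map of degree `q` which is a scalar on the `p`-torsion for all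
`p ∈ S`, `2 q < ∏ p` -/
theorem sq_all_set {K : Type} [Field K] [DecidableEq K] [IsAlgClosed K] (q : ℕ) [Fact q.Prime]
    [CharP K q] (hq5 : 5 ≤ q) (W : WeierstrassCurve K) [W.IsShortNF] [W.IsElliptic]
    (F : W.toAffine.Point →+ W.toAffine.Point) (hFinj : Function.Injective F)
    (hF : ∀ R, cx (F R) = cx R ^ q ∧ cy (F R) = cy R ^ q)
    (S : Finset ℕ) (hS : ∀ p ∈ S, p.Prime) (hsz : 2 * q < ∏ p ∈ S, p)
    (hsc : ∀ p ∈ S, ScOn W (F.comp F) p) :
    ∃ n : ℤ, ∀ R, F (F R) = n • R := by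
  have hq : q.Prime := Fact.out
  have hodd : Odd q := hq.odd_of_ne_two (by omega)
  obtain ⟨r, hr⟩ : ∃ r, q ^ 2 + 1 = 2 * r := by
    obtain ⟨t, ht⟩ := hodd
    exact ⟨2 * t ^ 2 + 2 * t + 1, by rw [ht]; ring⟩
  have dA : (X ^ (q ^ 2) : K[X]).natDegree = q ^ 2 := natDegree_X_pow _
  have hcub : (X ^ 3 + C W.a₄ * X + C W.a₆ : K[X]).natDegree ≤ 3 := by
    compute_degree
  have dB : ((X ^ 3 + C W.a₄ * X + C W.a₆ : K[X]) ^ r).natDegree < 2 * q ^ 2 + 1 := by
    refine lt_of_le_of_lt natDegree_pow_le ?_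
    nlinarith
  obtain ⟨β, hβ1, hβ2, hβ3⟩ := scalar_disc_all q hq5 W (A := X ^ (q ^ 2))
    (B := (X ^ 3 + C W.a₄ * X + C W.a₆) ^ r) (by rw [dA]; nlinarith) (by rw [dA]; exact dB)
    (F.comp F) (fun R hR => by
      refine ⟨fun h => hR (hFinj (hFinj (by
        rw [map_zero, map_zero]
        exact h))), ?_, ?_⟩
      · show cx (F (F R)) = _
        rw [(hF _).1, (hF _).1, ← pow_mul, eval_pow, eval_X, pow_two]
      · show cy (F (F R)) * cy R = _
        rw [(hF _).2, (hF _).2, ← pow_mul, ← pow_two, ← pow_succ, hr, pow_mul, eq_short hR]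
        simp only [eval_pow, eval_add, eval_mul, eval_X, eval_C])
  rw [dA] at hβ1 hβ2 hβ3
  have hβ4 : ((∏ p ∈ S, p : ℕ) : ℤ) ^ 2 ∣ 4 * ((q ^ 2 : ℕ) : ℤ) - β ^ 2 :=
    prod_sq_dvd S hS _ fun p hp => hβ2 p (hS p hp) (hsc p hp)
  push_cast at hβ1 hβ3
  obtain ⟨P, hP⟩ : ∃ P : ℕ, P = ∏ p ∈ S, p := ⟨_, rfl⟩
  rw [← hP] at hβ4 hsz
  have hβ5 : (P : ℤ) ^ 2 ∣ 4 * (q : ℤ) ^ 2 - β ^ 2 := by
    have h1 : ((q ^ 2 : ℕ) : ℤ) = (q : ℤ) ^ 2 := by push_cast; rfl
    rwa [h1] at hβ4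
  have hszz : (2 * q : ℤ) < P := by exact_mod_cast hsz
  have hq0 : (0 : ℤ) < q := by exact_mod_cast hq.pos
  have h0 : 4 * (q : ℤ) ^ 2 - β ^ 2 = 0 := by
    by_contra hne
    have h6 := Int.le_of_dvd (lt_of_le_of_ne (by linarith) (Ne.symm hne)) hβ5
    nlinarith [sq_nonneg β]
  have hcase : β = 2 * q ∨ β = -(2 * q) := by
    have h1 : (β - 2 * q) * (β + 2 * q) = 0 := by linear_combination -h0
    rcases mul_eq_zero.1 h1 with h | h
    · left
      linarith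
    · right
      linarith
  have hfin : ∃ n : ℤ, n ^ 2 + β * n + (q : ℤ) ^ 2 = 0 := by
    rcases hcase with h | h
    · exact ⟨-q, by rw [h]; ring⟩
    · exact ⟨q, by rw [h]; ring⟩
  obtain ⟨n, hn⟩ := hfin
  refine ⟨-n, fun R => ?_⟩
  by_cases hR : R = 0
  · rw [hR, map_zero, map_zero, smul_zero]
  · have h7 := hβ3 n hn R hR
    rw [neg_smul]
    exact eq_neg_of_add_eq_zero_left h7

end Pool.Agent.H80.CPP
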