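import Pool.Agent.H80.CPP.Two

/-!
# THEOREM CP+: the parts (2) and (3) of the final statement
-/

set_option autoImplicit false

namespace Pool.Agent.H80.CPP

open NumberField Pool.Agent.H27.SU Pool.Agent.H85.CP
open scoped Classical

/-- the product of the primes below `29` -/
theorem small_prod' (S : Finset ℕ) (hS : ∀ p ∈ S, p.Prime ∧ p < 29) :
    ∏ p ∈ S, p ≤ 3 ^ 18 := by
  have hsub : S ⊆ {2, 3, 5, 7, 11, 13, 17, 19, 23} := by
    intro p hp
    obtain ⟨h1, h2⟩ := hS p hp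
    interval_cases p <;> first | (exfalso; revert h1; decide) | decide
  have h1 : ∏ p ∈ S, p ≤ ∏ p ∈ ({2, 3, 5, 7, 11, 13, 17, 19, 23} : Finset ℕ), p := by
    refine Finset.prod_le_prod_of_subset_of_one_le' hsub fun p hp _ => ?_
    revert hp
    simp only [Finset.mem_insert, Finset.mem_singleton]
    omega
  exact h1.trans (by decide)

theorem xf_gt (E : WeierstrassCurve ℚ) [E.IsElliptic] (r : ℕ) [Fact r.Prime] {σ : GQ}
    (hσ : ¬ SqSc E r σ) (hNF : NumberField (XField E r)) :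
    3 ≤ (discr (XField E r)).natAbs := by
  revert hNF
  rw [XField_eq]
  intro hNF
  exact LX_gt' E r hσ

theorem xf_typ (E : WeierstrassCurve ℚ) [E.IsElliptic] (r : ℕ) [Fact r.Prime] (ht : Typ E r)
    (hNF : NumberField (XField E r)) : 3 ≤ (discr (XField E r)).natAbs := by
  revert hNF
  rw [XField_eq]
  intro hNF
  exact typ_gt E r ht

theorem cpp_three (r : ℕ) (hr : r.Prime) : ∃ A : ℕ, ∀ (E : WeierstrassCurve ℚ) [E.IsElliptic],
    E.j ≠ 0 → E.j ≠ 1728 → ∃ _ : NumberField (XField E r),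
    (∀ (K : IntermediateField ℚ QB) (S : Finset ℕ), (∀ p ∈ S, CartanField E p K) →
      (discr (XField E r)).natAbs ^ A < ∏ p ∈ S, p →
      ∀ σ : GQ, (∃ x ∈ K, σ x ≠ x) → SquareScalar E r σ) ∧
    (r = 2 → (∀ x : ℚ, 4 * x ^ 3 + E.b₂ * x ^ 2 + 2 * E.b₄ * x + E.b₆ ≠ 0) →
      (0 < E.Δ ∨ ∃ q : ℕ, q.Prime ∧ q % 4 = 1 ∧ Odd (padicValRat q E.Δ)) →
      ∀ S : Finset ℕ, (∀ p ∈ S, ∃ _ : Fact p.Prime, InNonsplitNormaliser E p) →
        (∀ p ∈ S, p ≤ (discr (XField E r)).natAbs ^ A) ∧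
        ∏ p ∈ S, p ≤ (discr (XField E r)).natAbs ^
          (A * (discr (XField E r)).natAbs.primeFactors.card)) := by
  have : Fact r.Prime := ⟨hr⟩
  obtain ⟨A₁, hA₁⟩ := cpp_last r hr
  obtain ⟨A₂, hA₂⟩ := cpp_two r hr
  refine ⟨A₁ + A₂ + 18, ?_⟩
  intro E _ hj0 hj1
  obtain ⟨hNF, h1, h2⟩ := hA₁ E hj0 hj1
  obtain ⟨hNF2, h3⟩ := hA₂ E hj0 hj1
  refine ⟨hNF, ?_, ?_⟩
  · intro K S hS hbig σ hσ
    by_contra hsc
    obtain ⟨D, hDd⟩ : ∃ D, D = (discr (XField E r)).natAbs := ⟨_, rfl⟩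
    rw [← hDd] at hbig
    have hD3 : 3 ≤ D := by
      rw [hDd]
      exact xf_gt E r (fun h => hsc ((sqSc_iff E r σ).1 h)) hNF
    have hSp : ∀ p ∈ S, p.Prime := by
      intro p hp
      obtain ⟨-, h, -⟩ := hS p hp
      exact h.out
    have hbd : ∏ p ∈ S with 29 ≤ p, p ≤ D ^ A₁ := by
      rcases S.eq_empty_or_nonempty with rfl | ⟨p₀, hp₀⟩
      · simp only [Finset.filter_empty, Finset.prod_empty]
        exact Nat.one_le_pow _ _ (by omega)
      have hK2 : Module.finrank ℚ K = 2 := (hS p₀ hp₀).1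
      have hfd : FiniteDimensional ℚ K := Module.finite_of_finrank_pos (by omega)
      have h5 := h1 K 1 (S.filter fun p => 29 ≤ p) (by omega) (fun p hp => by
        obtain ⟨hpS, hp29⟩ := Finset.mem_filter.1 hp
        exact ⟨hp29, K, le_rfl, hS p hpS, Or.inl ⟨σ, hσ, hsc⟩⟩)
      rw [← hDd] at h5
      refine h5.trans (Nat.pow_le_pow_right (by omega) ?_)
      calc A₁ * min 1 D.primeFactors.card ≤ A₁ * 1 := Nat.mul_le_mul_left _ (min_le_left _ _)
        _ = A₁ := mul_one _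
    have hsm : ∏ p ∈ S with ¬ 29 ≤ p, p ≤ D ^ 18 := by
      refine (small_prod' _ fun p hp => ?_).trans (Nat.pow_le_pow_left hD3 18)
      obtain ⟨h5, h6⟩ := Finset.mem_filter.1 hp
      exact ⟨hSp p h5, not_le.1 h6⟩
    have hle : ∏ p ∈ S, p ≤ D ^ (A₁ + A₂ + 18) := by
      rw [← Finset.prod_filter_mul_prod_filter_not S (fun p => 29 ≤ p)]
      calc (∏ p ∈ S with 29 ≤ p, p) * ∏ p ∈ S with ¬ 29 ≤ p, p ≤ D ^ A₁ * D ^ 18 :=
            Nat.mul_le_mul hbd hsm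
        _ = D ^ (A₁ + 18) := (pow_add _ _ _).symm
        _ ≤ _ := Nat.pow_le_pow_right (by omega) (by omega)
    omega
  · intro hr2 hno hD S hS
    have ht : Typ E r := Or.inr ⟨hr2, hno, hD⟩
    obtain ⟨D, hDd⟩ : ∃ D, D = (discr (XField E r)).natAbs := ⟨_, rfl⟩
    have hD0 : D ≠ 0 := by
      rw [hDd]
      exact Int.natAbs_ne_zero.2 (discr_ne_zero _)
    rw [← hDd]
    have hall := h2 ht S hS
    rw [← hDd] at hall
    have hmono : ∀ a b : ℕ, a ≤ b → D ^ a ≤ D ^ b := fun a b h =>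
      Nat.pow_le_pow_right (Nat.pos_of_ne_zero hD0) h
    refine ⟨fun p hp => ?_, hall.trans (hmono _ _ (Nat.mul_le_mul_right _ (by omega)))⟩
    by_cases hp29 : 29 ≤ p
    · obtain ⟨hfp, hE⟩ := hS p hp
      obtain ⟨K, hK⟩ := cart_ex E (by omega) hE
      have hK2 : Module.finrank ℚ K = 2 := hK.1
      have hfd : FiniteDimensional ℚ K := Module.finite_of_finrank_pos (by omega)
      have h5 := h3 K 1 {p} (by omega) (fun p' hp' => by
        rw [Finset.mem_singleton] at hp'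
        subst hp'
        exact ⟨hp29, K, le_rfl, hK, Or.inr (Or.inr (Or.inr ⟨hr2, hno, hD⟩))⟩)
      rw [← hDd, Finset.prod_singleton] at h5
      refine h5.trans (hmono _ _ ?_)
      calc A₂ * min 1 D.primeFactors.card ≤ A₂ * 1 := Nat.mul_le_mul_left _ (min_le_left _ _)
        _ ≤ A₁ + A₂ + 18 := by omega
    · have hD3 : 3 ≤ D := by
        rw [hDd]
        exact xf_typ E r ht hNF
      calc p ≤ 3 ^ 18 := by omega
        _ ≤ D ^ 18 := Nat.pow_le_pow_left hD3 18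
        _ ≤ _ := hmono _ _ (by omega)

end Pool.Agent.H80.CPP
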